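import Pool.Agent.W733.JA.Stmts
import Pool.Agent.H721R2.PerPt
import Pool.Agent.H789R2.AN.Hyp

/-!
# JA1: the closing lemma with exponential estimates
-/

set_option autoImplicit false

open Filter Topology Set

namespace Pool.Agent.W733.JA

open Pool.Agent.H721R2 Pool.Agent.H789R2.AN

universe u v

namespace A1

/-- closing lemma -/
theorem closing {X : Type u} {F : Type v} [MetricSpace X] [CompactSpace X] [NormedAddCommGroup F]
    [NormedSpace ℝ F] (S : HypSys X F) (η : ℝ) (hη : 0 < η) :
    ∃ δ > 0, ∀ (x : X) (l : ℕ), 1 ≤ l → dist x (S.g^[l] x) < δ →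
      ∃ p : X, S.g^[l] p = p ∧ ∀ k ≤ l, dist (S.g^[k] p) (S.g^[k] x) ≤ η := by
  have hK := S.one_le_K
  have hK0 : 0 < S.K := by linarith
  obtain ⟨T, hTg, -⟩ := S.exists_csys (1 / 2) (1 / 2) (by have := S.a_le; linarith)
    (by have := S.b_le; linarith) le_rfl le_rfl ⌈4 * S.Ls⌉₊ ⌈4 * S.Lu⌉₊ (Nat.le_ceil _)
    (Nat.le_ceil _) 1 one_pos
  have hεs : 0 < T.εs := by
    have := T.δ_le_εs
    have := T.δ_pos
    linarith
  obtain ⟨ε₀, hε₀, hsh⟩ := S.shadowing
  set ε := min ε₀ (min (T.εs / (16 * S.K)) (η / (9 * S.K))) with hε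
  have hε0 : 0 < ε := by positivity
  have hε1 : ε ≤ ε₀ := min_le_left _ _
  have hε2 : 16 * S.K * ε ≤ T.εs := by
    have : ε ≤ T.εs / (16 * S.K) := (min_le_right _ _).trans (min_le_left _ _)
    rw [le_div_iff₀ (by positivity)] at this
    linarith
  have hε3 : 9 * S.K * ε ≤ η := by
    have : ε ≤ η / (9 * S.K) := (min_le_right _ _).trans (min_le_right _ _)
    rw [le_div_iff₀ (by positivity)] at this
    linarith
  refine ⟨ε, hε0, fun y q hq1 hyq' => ?_⟩
  have hyq : dist y (S.g^[q] y) ≤ ε := hyq'.le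
  have hq0 : (0 : ℤ) < q := by exact_mod_cast hq1
  let z : ℤ → X := fun n => S.g^[(n % q).toNat] y
  have hz : ∀ n, dist (S.g (z n)) (z (n + 1)) ≤ ε := by
    intro n
    have h0 : 0 ≤ n % q := Int.emod_nonneg n hq0.ne'
    have h1 : n % q < q := Int.emod_lt_of_pos n hq0
    show dist (S.g (S.g^[(n % q).toNat] y)) (S.g^[((n + 1) % q).toNat] y) ≤ ε
    rw [← Function.iterate_succ_apply' S.g]
    by_cases h2 : n % q + 1 < q
    · have h3 : (n + 1) % q = n % q + 1 := by
        rw [Int.add_emod]
        have h5 : (1 : ℤ) % q = 1 := Int.emod_eq_of_lt (by norm_num) (by omega)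
        rw [h5]
        exact Int.emod_eq_of_lt (by omega) h2
      rw [h3]
      have h4 : (n % q + 1).toNat = (n % q).toNat + 1 := by omega
      rw [h4, dist_self]
      exact hε0.le
    · have h3 : n % q = q - 1 := by omega
      have h4 : (n + 1) % q = 0 := by
        have : n + 1 = q * (n / q) + q := by
          have := Int.mul_ediv_add_emod n q
          omega
        rw [this]
        simp
      rw [h4, h3]
      have h5 : ((q : ℤ) - 1).toNat.succ = q := by omega
      rw [h5]
      simp only [Int.toNat_zero, Function.iterate_zero, id_eq]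
      rw [dist_comm]
      exact hyq
  obtain ⟨w, hw1, hw2⟩ := hsh ε hε1 z hz
  have hzq : ∀ n, z (n + q) = z n := by
    intro n
    show S.g^[((n + q) % q).toNat] y = S.g^[(n % q).toNat] y
    rw [Int.add_emod_right]
  have hww : ∀ n, dist (w n) (w (n + q)) ≤ 16 * S.K * ε := by
    intro n
    have h1 := hw2 n
    have h2 := hw2 (n + q)
    rw [hzq] at h2
    have h3 := dist_triangle (w n) (z n) (w (n + q))
    rw [dist_comm (z n)] at h3
    linarith
  have hw' : ∀ n, w (n + 1 + q) = S.g (w (n + q)) := by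
    intro n
    have := hw1 (n + q)
    rw [← this]
    congr 1
    ring
  have e1 : ∀ k : ℕ, S.g^[k] (w 0) = w k := fun k => (S.orbit_nat w hw1 k).symm
  have e2 : ∀ k : ℕ, S.g^[k] (w q) = w (k + q) := fun k => by
    have := S.orbit_nat (fun n => w (n + q)) hw' k
    simp only [zero_add] at this
    exact this.symm
  have e3 : ∀ k : ℕ, S.g.symm^[k] (w 0) = w (-k) := fun k => (S.orbit_neg w hw1 k).symm
  have e4 : ∀ k : ℕ, S.g.symm^[k] (w q) = w (-k + q) := fun k => by
    have := S.orbit_neg (fun n => w (n + q)) hw' k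
    simp only [zero_add] at this
    exact this.symm
  have hS : FRel T.g (16 * S.K * ε) (w 0) (w q) := by
    intro k
    rw [hTg]
    show dist (S.g^[k] (w 0)) (S.g^[k] (w q)) ≤ _
    rw [e1, e2]
    exact hww k
  have hU : FRel T.g.symm (16 * S.K * ε) (w 0) (w q) := by
    intro k
    rw [hTg]
    show dist (S.g.symm^[k] (w 0)) (S.g.symm^[k] (w q)) ≤ _
    rw [e3, e4]
    exact hww (-k)
  have heq := T.expansive hε2 hS hU
  have hper : S.g^[q] (w 0) = w 0 := by
    rw [e1 q]
    exact heq.symm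
  refine ⟨w 0, hper, ?_⟩
  intro k hk
  rcases Nat.lt_or_ge k q with h | h
  · have hzk : z k = S.g^[k] y := by
      show S.g^[((k : ℤ) % q).toNat] y = S.g^[k] y
      have : ((k : ℤ) % q).toNat = k := by
        rw [Int.emod_eq_of_lt (by omega) (by exact_mod_cast h)]
        simp
      rw [this]
    rw [e1 k, ← hzk]
    refine (hw2 k).trans ?_
    nlinarith
  · have hkq : k = q := le_antisymm hk h
    subst hkq
    rw [hper]
    have hz0 : z 0 = y := by
      show S.g^[((0 : ℤ) % k).toNat] y = y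
      simp
    have h1 := hw2 0
    rw [hz0] at h1
    have h2 := dist_triangle (w 0) y (S.g^[k] y)
    nlinarith

end A1

/-- JA1 -/
theorem a1 : PropA1.{u, v} := by
  intro X F _ _ _ _ S
  obtain ⟨c, hLP⟩ := exists_LP S
  have hc := hLP.c_pos
  obtain ⟨δ', hδ', hlp⟩ := hLP.lp (c / 2) (by linarith)
  obtain ⟨δ, hδ, hcl⟩ := A1.closing S (min (c / 2) (δ' / 2)) (by positivity)
  refine ⟨c, hc, δ, hδ, fun x l hl hx => ?_⟩
  obtain ⟨p, hp, hpx⟩ := hcl x l hl hx
  refine ⟨p, hp, ?_⟩
  have hpx1 : ∀ k ≤ l, dist (S.g^[k] p) (S.g^[k] x) ≤ c / 2 := fun k hk =>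
    (hpx k hk).trans (min_le_left _ _)
  have h0 : dist p x < δ' := by
    have h := (hpx 0 (Nat.zero_le l)).trans (min_le_right _ _)
    simp only [Function.iterate_zero, id_eq] at h
    linarith
  obtain ⟨q, hq1, hq2⟩ := hlp p x h0
  have hS : SR S.g c p q := fun k => (hq1 k).trans (by linarith)
  have hU : SR S.g.symm c (S.g^[l] x) (S.g^[l] q) := by
    intro j
    rcases Nat.le_total j l with h | h
    · have e : ∀ y : X, S.g.symm^[j] (S.g^[l] y) = S.g^[l - j] y := by
        intro y
        have : S.g^[l] y = S.g^[j] (S.g^[l - j] y) := by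
          rw [← Function.iterate_add_apply]
          congr 2
          omega
        rw [this]
        exact iterL S.g j _
      rw [e x, e q]
      have h1 := hpx1 (l - j) (Nat.sub_le l j)
      have h2 := hq1 (l - j)
      have h3 := dist_triangle (S.g^[l - j] x) (S.g^[l - j] p) (S.g^[l - j] q)
      rw [dist_comm (S.g^[l - j] x) (S.g^[l - j] p)] at h3
      linarith
    · have e : ∀ y : X, S.g.symm^[j] (S.g^[l] y) = S.g.symm^[j - l] y := by
        intro y
        have : S.g.symm^[j] (S.g^[l] y) = S.g.symm^[j - l] (S.g.symm^[l] (S.g^[l] y)) := by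
          rw [← Function.iterate_add_apply]
          congr 2
          omega
        rw [this, iterL S.g l y]
      rw [e x, e q]
      exact (hq2 (j - l)).trans (by linarith)
  intro k hk
  have h1 := hLP.cS p q hS k
  have h2 := hLP.cU _ _ hU (l - k)
  have e : ∀ y : X, S.g.symm^[l - k] (S.g^[l] y) = S.g^[k] y := by
    intro y
    have : S.g^[l] y = S.g^[l - k] (S.g^[k] y) := by
      rw [← Function.iterate_add_apply]
      congr 2
      omega
    rw [this]
    exact iterL S.g (l - k) _
  rw [e x, e q] at h2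
  have h3 := dist_triangle (S.g^[k] p) (S.g^[k] q) (S.g^[k] x)
  rw [dist_comm (S.g^[k] q)] at h3
  linarith

end Pool.Agent.W733.JA
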