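import Pool.Agent.W733.JA.Stmts

/-!
# Project JA, JA4: pigeonhole
-/

set_option autoImplicit false

open scoped Topology ENNReal
open Set Filter MeasureTheory Metric

namespace Pool.Agent.W733.JA

universe u v w

theorem bsum_add {X : Type*} (g : X → X) (ψ : X → ℝ) (i l : ℕ) (x : X) :
    bsum g ψ (i + l) x = bsum g ψ i x + bsum g ψ l (g^[i] x) := by
  unfold bsum
  rw [Finset.sum_range_add]
  congr 1
  refine Finset.sum_congr rfl fun j _ => ?_
  rw [← Function.iterate_add_apply, add_comm]

theorem a4 : PropA4.{u} := by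
  intro X _ _ g ψ x hlim K δ hδ
  set K' := max K 0 with hK'
  have hK0 : 0 ≤ K' := le_max_right _ _
  -- choose the sequence
  have hex : ∀ n : ℕ, ∃ m, n < m ∧ bsum g ψ m x ≤ bsum g ψ n x - K' := by
    intro n
    have h1 := hlim.eventually_le_atBot (bsum g ψ n x - K')
    obtain ⟨m, hm1, hm2⟩ := (h1.and (eventually_gt_atTop n)).exists
    exact ⟨m, hm2, hm1⟩
  choose F hF1 hF2 using hex
  let s : ℕ → ℕ := fun j => F^[j] 0
  have hs : ∀ j, s (j + 1) = F (s j) := fun j => Function.iterate_succ_apply' F j 0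
  have hsmono : StrictMono s := strictMono_nat_of_lt_succ (fun j => by rw [hs]; exact hF1 _)
  have hdec : ∀ a b, a < b → bsum g ψ (s b) x ≤ bsum g ψ (s a) x - K' := by
    intro a b hab
    induction b with
    | zero => omega
    | succ b ih =>
      rw [hs]
      rcases Nat.lt_succ_iff_lt_or_eq.mp hab with h | h
      · have := ih h
        have h2 := hF2 (s b)
        linarith
      · subst h
        exact hF2 _
  -- compactness
  obtain ⟨p, φ, hφ, hconv⟩ := CompactSpace.tendsto_subseq (fun j => g^[s j] x)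
  have hc := hconv.cauchySeq
  rw [Metric.cauchySeq_iff'] at hc
  obtain ⟨N, hN⟩ := hc δ hδ
  have h1 := hN (N + 1) (Nat.le_succ N)
  have hlt : φ N < φ (N + 1) := hφ (Nat.lt_succ_self N)
  have hslt : s (φ N) < s (φ (N + 1)) := hsmono hlt
  refine ⟨s (φ N), s (φ (N + 1)) - s (φ N), by omega, ?_, ?_⟩
  · rw [← Function.iterate_add_apply, Nat.sub_add_cancel hslt.le, dist_comm]
    exact h1
  · have h2 := hdec _ _ hlt
    have h3 := bsum_add g ψ (s (φ N)) (s (φ (N + 1)) - s (φ N)) x
    rw [Nat.add_sub_cancel' hslt.le] at h3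
    have h4 : K ≤ K' := le_max_left _ _
    linarith

end Pool.Agent.W733.JA
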