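import Pool.Agent.W733.JA.Stmts
import Pool.Agent.W733.JA.A4

/-!
# Project JA, JA3: Birkhoff sums tending to minus infinity
-/

set_option autoImplicit false

open scoped Topology ENNReal
open Set Filter MeasureTheory Metric

namespace Pool.Agent.W733.JA

universe u v w

theorem a3 : PropA3.{u} := by
  intro X _ _ _ g m _ ψ hψ hJ W hW hmW hsum
  have hexp : Measurable (fun x => ENNReal.ofReal (Real.exp (ψ x))) :=
    (ENNReal.measurable_ofReal.comp (Real.measurable_exp.comp hψ.measurable))
  have hgm : Measurable g := g.continuous.measurable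
  have hbm : ∀ n, Measurable (fun x => bsum g ψ n x) := by
    intro n
    unfold bsum
    refine Finset.measurable_sum _ fun i _ => ?_
    exact hψ.measurable.comp (hgm.iterate i)
  -- change of variables
  have hmeas : m.map g.symm = m.withDensity (fun x => ENNReal.ofReal (Real.exp (ψ x))) := by
    ext A hA
    rw [withDensity_apply _ hA, ← hJ A hA, Measure.map_apply g.symm.continuous.measurable hA]
    congr 1
    ext y
    simp only [mem_preimage, mem_image]
    constructor
    · intro h
      exact ⟨g.symm y, h, by simp⟩
    · rintro ⟨z, hz, rfl⟩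
      simpa using hz
  have hmap : m = (m.withDensity (fun x => ENNReal.ofReal (Real.exp (ψ x)))).map g := by
    rw [← hmeas, Measure.map_map hgm g.symm.continuous.measurable]
    have : (⇑g ∘ ⇑g.symm) = id := by
      ext y
      simp
    rw [this, Measure.map_id]
  have himg : ∀ A : Set X, MeasurableSet A → MeasurableSet (g '' A) := by
    intro A hA
    have : g '' A = g.symm ⁻¹' A := by
      ext y
      simp only [mem_preimage, mem_image]
      constructor
      · rintro ⟨z, hz, rfl⟩
        simpa using hz
      · intro h
        exact ⟨g.symm y, h, by simp⟩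
    rw [this]
    exact g.symm.continuous.measurable hA
  have hcv : ∀ (h : X → ℝ≥0∞) (A : Set X), Measurable h → MeasurableSet A →
      ∫⁻ y in g '' A, h y ∂m = ∫⁻ x in A, h (g x) * ENNReal.ofReal (Real.exp (ψ x)) ∂m := by
    intro h A hh hA
    conv_lhs => rw [hmap]
    rw [setLIntegral_map (himg A hA) hh hgm]
    have hpre : g ⁻¹' (g '' A) = A := preimage_image_eq _ g.injective
    rw [hpre]
    have key := setLIntegral_withDensity_eq_setLIntegral_mul m hexp (hh.comp hgm) hA
    simp only [Function.comp_apply] at key
    rw [key]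
    refine lintegral_congr fun x => ?_
    simp only [Pi.mul_apply, Function.comp]
    rw [mul_comm]
  have hstep : ∀ (n : ℕ) (A : Set X), MeasurableSet A →
      m (g^[n] '' A) = ∫⁻ x in A, ENNReal.ofReal (Real.exp (bsum g ψ n x)) ∂m := by
    intro n
    induction n with
    | zero =>
      intro A hA
      simp [bsum]
    | succ n ih =>
      intro A hA
      have e1 : (⇑g)^[n + 1] '' A = (⇑g)^[n] '' (g '' A) := by
        rw [Function.iterate_succ, image_comp]
      rw [e1, ih _ (himg A hA), hcv (fun y => ENNReal.ofReal (Real.exp (bsum g ψ n y))) A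
        (ENNReal.measurable_ofReal.comp (Real.measurable_exp.comp (hbm n))) hA]
      refine lintegral_congr fun x => ?_
      rw [← ENNReal.ofReal_mul (Real.exp_pos _).le, ← Real.exp_add]
      congr 2
      have := bsum_add g ψ 1 n x
      rw [add_comm n 1, this]
      simp [bsum]
      ring
  have hfin : ∫⁻ x in W, ∑' n, ENNReal.ofReal (Real.exp (bsum g ψ n x)) ∂m ≠ ⊤ := by
    have hli := lintegral_tsum (μ := m.restrict W)
      (f := fun (n : ℕ) (x : X) => ENNReal.ofReal (Real.exp (bsum g ψ n x)))
      (fun n => (ENNReal.measurable_ofReal.comp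
        (Real.measurable_exp.comp (hbm n))).aemeasurable)
    rw [hli]
    have : (fun n => ∫⁻ x in W, ENNReal.ofReal (Real.exp (bsum g ψ n x)) ∂m)
        = fun n => m (g^[n] '' W) := by
      funext n
      exact (hstep n W hW).symm
    rw [this]
    exact hsum
  have hae := ae_lt_top (μ := m.restrict W) (f := fun x => ∑' n, ENNReal.ofReal (Real.exp (bsum g ψ n x)))
    (Measurable.tsum fun n => (ENNReal.measurable_ofReal.comp
        (Real.measurable_exp.comp (hbm n)))) hfin
  have hex : ∃ x ∈ W, ∑' n, ENNReal.ofReal (Real.exp (bsum g ψ n x)) < ⊤ := by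
    by_contra hcon
    push Not at hcon
    rw [ae_restrict_iff' hW] at hae
    have : m W = 0 := by
      refine measure_mono_null ?_ (ae_iff.mp hae)
      intro x hx
      simp only [mem_ofPred_eq]
      intro h
      exact absurd (h hx) (not_lt.mpr (hcon x hx))
    exact hmW this
  obtain ⟨x, hxW, hx⟩ := hex
  refine ⟨x, hxW, ?_⟩
  have h0 := ENNReal.tendsto_atTop_zero_of_tsum_ne_top hx.ne
  have h1 : Tendsto (fun n => Real.exp (bsum g ψ n x)) atTop (𝓝 0) := by
    have := (ENNReal.tendsto_toReal ENNReal.zero_ne_top).comp h0
    simp only [ENNReal.toReal_zero] at this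
    refine this.congr fun n => ?_
    simp [ENNReal.toReal_ofReal (Real.exp_pos _).le]
  exact Real.tendsto_exp_comp_nhds_zero.mp h1

end Pool.Agent.W733.JA
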