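import Pool.Agent.W733.JA.Stmts

/-!
# JC0: linear algebra of the volume factor `vf`
-/

set_option autoImplicit false

open Module Matrix

namespace Pool.Agent.W733.JA

universe u

theorem c0 : PropC0.{u} := by
  intro E _ _ _ k m b L
  refine ⟨?_, ?_⟩
  · intro hL
    have h1 : LinearIndependent ℝ (fun i => L (b i)) := by
      have := b.linearIndependent.map' (L : E →ₗ[ℝ] EuclideanSpace ℝ (Fin m))
        (LinearMap.ker_eq_bot.2 hL)
      exact this
    have h2 : (Matrix.gram ℝ (fun i => L (b i))).PosDef := Matrix.posDef_gram_of_linearIndependent h1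
    have h3 := h2.det_pos
    unfold vf
    exact Real.sqrt_pos.2 h3
  · intro A
    have h : (Matrix.of fun i j : Fin k => inner ℝ (L (A (b i))) (L (A (b j)))) =
      (LinearMap.toMatrix b b (A : E →ₗ[ℝ] E)).transpose *
        (Matrix.of fun i j : Fin k => inner ℝ (L (b i)) (L (b j))) *
        (LinearMap.toMatrix b b (A : E →ₗ[ℝ] E)) := by
      ext i j
      have h1 : ∀ i, A (b i) = ∑ k, (LinearMap.toMatrix b b (A : E →ₗ[ℝ] E)) k i • b k := by
        intro i
        simp only [LinearMap.toMatrix_apply]
        exact (b.sum_repr (A (b i))).symm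
      have h2 : inner ℝ (L (A (b i))) (L (A (b j))) =
          ∑ l, ∑ k, (LinearMap.toMatrix b b (A : E →ₗ[ℝ] E)) l j *
          ((LinearMap.toMatrix b b (A : E →ₗ[ℝ] E)) k i * inner ℝ (L (b k)) (L (b l))) := by
        rw [h1 j, map_sum, inner_sum]
        refine Finset.sum_congr rfl fun l _ => ?_
        rw [map_smul, inner_smul_right, h1 i, map_sum, sum_inner, Finset.mul_sum]
        refine Finset.sum_congr rfl fun k _ => ?_
        rw [map_smul, real_inner_smul_left]
      simp only [Matrix.of_apply, Matrix.mul_apply, Matrix.transpose_apply]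
      rw [h2]
      refine Finset.sum_congr rfl fun l _ => ?_
      rw [Finset.sum_mul]
      refine Finset.sum_congr rfl fun k _ => ?_
      ring
    unfold vf
    have h4 : (Matrix.of fun i j : Fin k => inner ℝ ((L.comp A) (b i)) ((L.comp A) (b j))) =
      (Matrix.of fun i j : Fin k => inner ℝ (L (A (b i))) (L (A (b j)))) := rfl
    rw [h4, h, Matrix.det_mul, Matrix.det_mul, Matrix.det_transpose, LinearMap.det_toMatrix]
    have h5 : LinearMap.det (A : E →ₗ[ℝ] E) *
        (Matrix.of fun i j : Fin k => inner ℝ (L (b i)) (L (b j))).det *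
        LinearMap.det (A : E →ₗ[ℝ] E) = (LinearMap.det (A : E →ₗ[ℝ] E)) ^ 2 *
          (Matrix.of fun i j : Fin k => inner ℝ (L (b i)) (L (b j))).det := by ring
    rw [h5, Real.sqrt_mul (sq_nonneg _), Real.sqrt_sq_eq_abs]

end Pool.Agent.W733.JA
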