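import Pool.Agent.W733.JA.Stmts
import Pool.Agent.H839R2.Geo.VolChart
import Pool.Agent.W749.ST.Exist

/-!
# Existence of the volume measure of an immersed closed manifold
-/

set_option autoImplicit false
set_option linter.unusedSectionVars false

open scoped Manifold ContDiff Topology ENNReal
open Set Filter MeasureTheory Metric Module

namespace Pool.Agent.W733.JA

open Pool.Agent.H721R2 Pool.Agent.H789R2.AN Pool.Agent.H839R2.Geo Pool.Agent.W749.ST

universe u v w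

section loc

variable {E : Type*} [NormedAddCommGroup E] [NormedSpace ℝ E] [FiniteDimensional ℝ E]
  [MeasurableSpace E] [BorelSpace E]
  {M : Type*} [TopologicalSpace M] [ChartedSpace E M] [IsManifold 𝓘(ℝ, E) ∞ M]
  {k m : ℕ}

omit [FiniteDimensional ℝ E] [MeasurableSpace E] [BorelSpace E] in
theorem c1_man1 : IsManifold 𝓘(ℝ, E) 1 M := IsManifold.of_le (n := ∞) (by simp)

theorem c1_vf_cont (b : Basis (Fin k) ℝ E) :
    Continuous fun L : E →L[ℝ] EuclideanSpace ℝ (Fin m) => vf b L := by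
  unfold vf
  apply Continuous.sqrt
  apply Continuous.matrix_det
  apply continuous_matrix
  intro i j
  have h : ∀ i, Continuous fun L : E →L[ℝ] EuclideanSpace ℝ (Fin m) => L (b i) := fun i =>
    (ContinuousLinearMap.apply ℝ (EuclideanSpace ℝ (Fin m)) (b i)).continuous
  exact (h i).inner (h j)

variable {e : M → EuclideanSpace ℝ (Fin m)}

theorem c1_diffAt (he : ContMDiff 𝓘(ℝ, E) 𝓘(ℝ, EuclideanSpace ℝ (Fin m)) ∞ e) (c : M) {y : E}
    (hy : y ∈ (extChartAt 𝓘(ℝ, E) c).target) :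
    ContDiffAt ℝ 1 (e ∘ (extChartAt 𝓘(ℝ, E) c).symm) y := by
  have : IsManifold 𝓘(ℝ, E) 1 M := c1_man1
  exact hatMap_contDiffAt e (he.of_le (by simp)) c y hy

theorem c1_inj (he : ContMDiff 𝓘(ℝ, E) 𝓘(ℝ, EuclideanSpace ℝ (Fin m)) ∞ e)
    (hinj : ∀ x, Function.Injective (dm E e x)) (c : M) {y : E}
    (hy : y ∈ (extChartAt 𝓘(ℝ, E) c).target) :
    Function.Injective (fderiv ℝ (e ∘ (extChartAt 𝓘(ℝ, E) c).symm) y) := by
  have : IsManifold 𝓘(ℝ, E) 1 M := c1_man1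
  have hx : (extChartAt 𝓘(ℝ, E) c).symm y ∈ (extChartAt 𝓘(ℝ, E) c).source :=
    (extChartAt 𝓘(ℝ, E) c).map_target hy
  obtain ⟨A₀, hA₀⟩ := isInvertible_mfderiv_extChartAt (I := 𝓘(ℝ, E)) hx
  obtain ⟨A, hA⟩ : ∃ A : E ≃L[ℝ] E, ∀ v : E,
      dm E (extChartAt 𝓘(ℝ, E) c) ((extChartAt 𝓘(ℝ, E) c).symm y) v = A v :=
    ⟨A₀, fun v => (DFunLike.congr_fun hA₀ v).symm⟩
  have h1 : ∀ w : E, dm E e ((extChartAt 𝓘(ℝ, E) c).symm y) (A.symm w) =
      fderiv ℝ (e ∘ (extChartAt 𝓘(ℝ, E) c).symm) y w := by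
    intro w
    have h2 := hatMap_mfderiv e (he.of_le (by simp)) c _ hx (A.symm w)
    rw [(extChartAt 𝓘(ℝ, E) c).right_inv hy, hA, A.apply_symm_apply] at h2
    exact h2
  intro a a' haa
  rw [← h1, ← h1] at haa
  exact A.symm.injective (hinj _ haa)

theorem c1_trans (he : ContMDiff 𝓘(ℝ, E) 𝓘(ℝ, EuclideanSpace ℝ (Fin m)) ∞ e) (c c' : M) {y : E}
    (hy : y ∈ (extChartAt 𝓘(ℝ, E) c).target)
    (hy' : (extChartAt 𝓘(ℝ, E) c).symm y ∈ (extChartAt 𝓘(ℝ, E) c').source) :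
    fderiv ℝ (e ∘ (extChartAt 𝓘(ℝ, E) c).symm) y =
      (fderiv ℝ (e ∘ (extChartAt 𝓘(ℝ, E) c').symm) (trans 𝓘(ℝ, E) c c' y)).comp
        (fderiv ℝ (trans 𝓘(ℝ, E) c c') y) := by
  have h1 : e ∘ (extChartAt 𝓘(ℝ, E) c).symm =ᶠ[𝓝 y]
      (e ∘ (extChartAt 𝓘(ℝ, E) c').symm) ∘ trans 𝓘(ℝ, E) c c' := by
    filter_upwards [(trans_domain_open c c').mem_nhds ⟨hy, hy'⟩] with z hz
    show e ((extChartAt 𝓘(ℝ, E) c).symm z) =
      e ((extChartAt 𝓘(ℝ, E) c').symm (extChartAt 𝓘(ℝ, E) c' ((extChartAt 𝓘(ℝ, E) c).symm z)))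
    rw [(extChartAt 𝓘(ℝ, E) c').left_inv hz.2]
  rw [h1.fderiv_eq]
  refine fderiv_comp y ?_ ?_
  · exact (c1_diffAt he c' ((extChartAt 𝓘(ℝ, E) c').map_source hy')).differentiableAt (by norm_num)
  · exact (contDiffAt_trans hy hy').differentiableAt (by simp)

end loc

theorem c1 (h0 : PropC0.{u}) : PropC1.{u, v} := by
  intro E _ _ _ _ _ M _ _ _ _ _ _ _ k m b e he hinj
  have : IsManifold 𝓘(ℝ, E) 1 M := c1_man1
  set w : M → E → ℝ≥0∞ := fun c y =>
    ENNReal.ofReal (vf b (fderiv ℝ (e ∘ (extChartAt 𝓘(ℝ, E) c).symm) y)) with hw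
  obtain ⟨F, hF⟩ : ∃ F : Finset M, ∀ x : M, ∃ c ∈ F, x ∈ (extChartAt 𝓘(ℝ, E) c).source := by
    obtain ⟨t, ht⟩ := isCompact_univ.elim_finite_subcover
      (fun c : M => (extChartAt 𝓘(ℝ, E) c).source) (fun c => isOpen_extChartAt_source c)
      (fun x _ => mem_iUnion.2 ⟨x, mem_extChartAt_source x⟩)
    refine ⟨t, fun x => ?_⟩
    obtain ⟨i, hi, hxi⟩ := mem_iUnion₂.1 (ht (mem_univ x))
    exact ⟨i, hi, hxi⟩
  obtain ⟨μ, hμ⟩ := abstract_exists b.addHaar (fun c : M => (extChartAt 𝓘(ℝ, E) c).source)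
    (fun c => (isOpen_extChartAt_source c).measurableSet) F hF
    (fun c => (extChartAt 𝓘(ℝ, E) c).target) (fun c => (isOpen_extChartAt_target c).measurableSet)
    (fun c => (extChartAt 𝓘(ℝ, E) c).symm)
    (fun c => continuousOn_extChartAt_symm c) (fun c => extChartAt 𝓘(ℝ, E) c) w
    (fun c c' y => fderiv ℝ (trans 𝓘(ℝ, E) c c') y)
    (fun c y hy => (extChartAt 𝓘(ℝ, E) c).map_target hy)
    (fun c y hy => (extChartAt 𝓘(ℝ, E) c).right_inv hy)
    (fun c c' y hy hy' => ⟨(extChartAt 𝓘(ℝ, E) c').map_source hy',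
      (extChartAt 𝓘(ℝ, E) c').left_inv hy'⟩)
    (fun c c' y hy hy' => (((contDiffAt_trans hy hy').differentiableAt
      (by simp)).hasFDerivAt).hasFDerivWithinAt)
    (fun c c' y hy hy' => by
      show ENNReal.ofReal _ = ENNReal.ofReal _ * ENNReal.ofReal _
      rw [← ENNReal.ofReal_mul (abs_nonneg _), c1_trans he c c' hy hy',
        (h0 E k m b _).2 (fderiv ℝ (trans 𝓘(ℝ, E) c c') y)]
      rfl)
  have key : ∀ (c : M) (A : Set M), MeasurableSet A → A ⊆ (extChartAt 𝓘(ℝ, E) c).source →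
      μ A = ∫⁻ y in (extChartAt 𝓘(ℝ, E) c) '' A, w c y ∂b.addHaar := by
    intro c A hA hAc
    have h1 : μ A = μ.restrict (extChartAt 𝓘(ℝ, E) c).source A := by
      rw [Measure.restrict_apply hA, inter_eq_self_of_subset_left hAc]
    have h2 : (extChartAt 𝓘(ℝ, E) c).target ∩ (extChartAt 𝓘(ℝ, E) c).symm ⁻¹' A =
        (extChartAt 𝓘(ℝ, E) c) '' A := by
      ext z
      constructor
      · rintro ⟨hz, hzA⟩
        exact ⟨_, hzA, (extChartAt 𝓘(ℝ, E) c).right_inv hz⟩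
      · rintro ⟨x, hx, rfl⟩
        refine ⟨(extChartAt 𝓘(ℝ, E) c).map_source (hAc hx), ?_⟩
        show (extChartAt 𝓘(ℝ, E) c).symm (extChartAt 𝓘(ℝ, E) c x) ∈ A
        rw [(extChartAt 𝓘(ℝ, E) c).left_inv (hAc hx)]
        exact hx
    rw [h1, hμ c, mch_apply b.addHaar (isOpen_extChartAt_target c).measurableSet
      (continuousOn_extChartAt_symm c) (w c) hA, h2]
  have hcont : ∀ c : M, ContinuousOn (fun y => vf b (fderiv ℝ (e ∘ (extChartAt 𝓘(ℝ, E) c).symm) y))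
      (extChartAt 𝓘(ℝ, E) c).target := by
    intro c y hy
    have h1 : ContinuousAt (fderiv ℝ (e ∘ (extChartAt 𝓘(ℝ, E) c).symm)) y :=
      ((c1_diffAt he c hy).fderiv_right (m := 0) (by norm_num)).continuousAt
    exact ((c1_vf_cont b).continuousAt.comp h1).continuousWithinAt
  refine ⟨μ, ⟨?_⟩, ?_, key⟩
  · apply isCompact_univ.measure_lt_top_of_nhdsWithin
    intro x _
    rw [nhdsWithin_univ]
    set φ := extChartAt 𝓘(ℝ, E) x with hφ
    have hx : x ∈ φ.source := mem_extChartAt_source x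
    have hT : φ.target ∈ 𝓝 (φ x) := extChartAt_target_mem_nhds x
    have h1 : ContinuousAt (fun y => vf b (fderiv ℝ (e ∘ φ.symm) y)) (φ x) :=
      (hcont x).continuousAt hT
    have h2 : ∀ᶠ y in 𝓝 (φ x), vf b (fderiv ℝ (e ∘ φ.symm) y) <
        vf b (fderiv ℝ (e ∘ φ.symm) (φ x)) + 1 :=
      h1.eventually (gt_mem_nhds (lt_add_one _))
    obtain ⟨r, hr0, hr⟩ := Metric.mem_nhds_iff.mp (inter_mem h2 hT)
    have hUo : IsOpen (φ.source ∩ φ ⁻¹' ball (φ x) r) :=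
      (continuousOn_extChartAt x).isOpen_inter_preimage (isOpen_extChartAt_source x) isOpen_ball
    refine ⟨φ.source ∩ φ ⁻¹' ball (φ x) r, hUo.mem_nhds ⟨hx, mem_ball_self hr0⟩, ?_⟩
    rw [key x _ hUo.measurableSet inter_subset_left]
    have h3 : φ '' (φ.source ∩ φ ⁻¹' ball (φ x) r) ⊆ ball (φ x) r := by
      rintro _ ⟨z, ⟨_, hz⟩, rfl⟩
      exact hz
    calc ∫⁻ y in φ '' (φ.source ∩ φ ⁻¹' ball (φ x) r), w x y ∂b.addHaar
        ≤ ∫⁻ y in ball (φ x) r, w x y ∂b.addHaar := lintegral_mono_set h3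
      _ ≤ ∫⁻ _ in ball (φ x) r, ENNReal.ofReal (vf b (fderiv ℝ (e ∘ φ.symm) (φ x)) + 1)
            ∂b.addHaar := by
          apply setLIntegral_mono' measurableSet_ball
          intro y hy
          exact ENNReal.ofReal_le_ofReal (le_of_lt (hr hy).1)
      _ < ⊤ := by
          rw [setLIntegral_const]
          exact ENNReal.mul_lt_top ENNReal.ofReal_lt_top measure_ball_lt_top
  · rintro U hU ⟨x, hxU⟩ h
    set φ := extChartAt 𝓘(ℝ, E) x with hφ
    have hx : x ∈ φ.source := mem_extChartAt_source x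
    have hAo : IsOpen (φ.source ∩ U) := (isOpen_extChartAt_source x).inter hU
    have h1 : μ (φ.source ∩ U) = 0 := measure_mono_null inter_subset_right h
    rw [key x _ hAo.measurableSet inter_subset_left] at h1
    have h2 : φ '' (φ.source ∩ U) = φ.target ∩ φ.symm ⁻¹' U := by
      rw [φ.image_source_inter_eq']
    have h3 : IsOpen (φ '' (φ.source ∩ U)) := by
      rw [h2]
      exact (continuousOn_extChartAt_symm x).isOpen_inter_preimage (isOpen_extChartAt_target x) hU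
    have h4 : φ '' (φ.source ∩ U) ⊆ φ.target := by
      rw [h2]; exact inter_subset_left
    have hm : AEMeasurable (w x) (b.addHaar.restrict (φ '' (φ.source ∩ U))) :=
      (((hcont x).mono h4).aemeasurable h3.measurableSet).ennreal_ofReal
    rw [lintegral_eq_zero_iff' hm] at h1
    have h5 : ∀ᵐ y ∂(b.addHaar.restrict (φ '' (φ.source ∩ U))), False := by
      filter_upwards [h1, ae_restrict_mem h3.measurableSet] with y hy hyA
      have h6 : 0 < vf b (fderiv ℝ (e ∘ φ.symm) y) :=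
        (h0 E k m b _).1 (c1_inj he hinj x (h4 hyA))
      have h7 : ENNReal.ofReal (vf b (fderiv ℝ (e ∘ φ.symm) y)) = 0 := hy
      rw [ENNReal.ofReal_eq_zero] at h7
      linarith
    have h8 : b.addHaar.restrict (φ '' (φ.source ∩ U)) = 0 := by
      rw [← ae_eq_bot]
      exact eventually_false_iff_eq_bot.1 h5
    rw [Measure.restrict_eq_zero] at h8
    exact (h3.measure_pos b.addHaar ⟨φ x, x, ⟨hx, hxU⟩, rfl⟩).ne' h8

end Pool.Agent.W733.JA
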