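import Pool.Agent.W733.JA.Stmts

/-! # JC2: change of variables for the volume of a closed submanifold -/

set_option autoImplicit false

open scoped Manifold ContDiff Topology ENNReal
open Set Filter MeasureTheory Metric Module

namespace Pool.Agent.W733.JA.C2P

open Pool.Agent.H721R2 Pool.Agent.H789R2.AN Pool.Agent.W733.JA

universe u v

theorem meas_inter_pre {X Y : Type*} [TopologicalSpace X] [MeasurableSpace X] [BorelSpace X]
    [TopologicalSpace Y] [MeasurableSpace Y] [BorelSpace Y] {f : X → Y} {T : Set X}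
    (hT : IsOpen T) (hf : ContinuousOn f T) {A : Set Y} (hA : MeasurableSet A) :
    MeasurableSet (T ∩ f ⁻¹' A) := by
  have h1 : Measurable (T.domRestrict f) := (continuousOn_iff_continuous_domRestrict.1 hf).measurable
  have h2 := hT.measurableSet.subtype_image (h1 hA)
  convert h2 using 1
  ext x
  constructor
  · rintro ⟨hx, hx'⟩
    exact ⟨⟨x, hx⟩, hx', rfl⟩
  · rintro ⟨⟨y, hy⟩, hy', rfl⟩
    exact ⟨hy, hy'⟩

section

variable {E : Type u} [NormedAddCommGroup E] [NormedSpace ℝ E]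
  {k m : ℕ} (b : Basis (Fin k) ℝ E)

theorem vf_cont : Continuous (vf b : (E →L[ℝ] EuclideanSpace ℝ (Fin m)) → ℝ) := by
  unfold vf
  refine Real.continuous_sqrt.comp (Continuous.matrix_det ?_)
  refine continuous_matrix fun i j => ?_
  exact ((ContinuousLinearMap.apply ℝ _ (b i)).continuous).inner
    ((ContinuousLinearMap.apply ℝ _ (b j)).continuous)

theorem vf_meas [MeasurableSpace E] [BorelSpace E] (h : E → EuclideanSpace ℝ (Fin m)) :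
    Measurable fun y => vf b (fderiv ℝ h y) :=
  (vf_cont b).measurable.comp (measurable_fderiv ℝ h)

variable {M : Type v} [TopologicalSpace M] [ChartedSpace E M]

theorem img_meas [MeasurableSpace E] [BorelSpace E] [MeasurableSpace M] [BorelSpace M]
    (c : M) {A : Set M} (hA : MeasurableSet A)
    (hs : A ⊆ (extChartAt 𝓘(ℝ, E) c).source) : MeasurableSet ((extChartAt 𝓘(ℝ, E) c) '' A) := by
  rw [(extChartAt 𝓘(ℝ, E) c).image_eq_target_inter_inv_preimage hs]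
  exact meas_inter_pre (isOpen_extChartAt_target c) (continuousOn_extChartAt_symm c) hA

theorem map_eq [FiniteDimensional ℝ E] [MeasurableSpace E] [BorelSpace E] [MeasurableSpace M]
    [BorelSpace M] (e : M → EuclideanSpace ℝ (Fin m)) (μ : Measure M) (hμ : IsVolE b e μ) (c : M)
    {A : Set M} (hA : MeasurableSet A) (hs : A ⊆ (extChartAt 𝓘(ℝ, E) c).source) :
    AEMeasurable (extChartAt 𝓘(ℝ, E) c) (μ.restrict A) ∧
    Measure.map (extChartAt 𝓘(ℝ, E) c) (μ.restrict A) =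
      (b.addHaar.restrict ((extChartAt 𝓘(ℝ, E) c) '' A)).withDensity fun y =>
        ENNReal.ofReal (vf b (fderiv ℝ (e ∘ (extChartAt 𝓘(ℝ, E) c).symm) y)) := by
  have hφ : AEMeasurable (extChartAt 𝓘(ℝ, E) c) (μ.restrict A) :=
    ((continuousOn_extChartAt (I := 𝓘(ℝ, E)) c).mono hs).aemeasurable hA
  refine ⟨hφ, Measure.ext fun B hB => ?_⟩
  rw [Measure.map_apply_of_aemeasurable hφ hB, Measure.restrict_apply' hA,
    withDensity_apply _ hB, Measure.restrict_restrict hB, ← image_preimage_inter]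
  refine hμ c _ ?_ (inter_subset_right.trans hs)
  have h1 := meas_inter_pre (isOpen_extChartAt_source (I := 𝓘(ℝ, E)) c)
    (continuousOn_extChartAt (I := 𝓘(ℝ, E)) c) hB
  convert h1.inter hA using 1
  ext x
  constructor
  · rintro ⟨h2, h3⟩
    exact ⟨⟨hs h3, h2⟩, h3⟩
  · rintro ⟨⟨-, h2⟩, h3⟩
    exact ⟨h2, h3⟩

theorem lint_eq [FiniteDimensional ℝ E] [MeasurableSpace E] [BorelSpace E] [MeasurableSpace M]
    [BorelSpace M] (e : M → EuclideanSpace ℝ (Fin m)) (μ : Measure M) (hμ : IsVolE b e μ) (c : M)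
    {A : Set M} (hA : MeasurableSet A) (hs : A ⊆ (extChartAt 𝓘(ℝ, E) c).source)
    (Q : E → ℝ≥0∞) (hQ : Measurable Q) :
    ∫⁻ x in A, Q (extChartAt 𝓘(ℝ, E) c x) ∂μ = ∫⁻ y in (extChartAt 𝓘(ℝ, E) c) '' A,
      ENNReal.ofReal (vf b (fderiv ℝ (e ∘ (extChartAt 𝓘(ℝ, E) c).symm) y)) * Q y
        ∂b.addHaar := by
  obtain ⟨h1, h2⟩ := map_eq b e μ hμ c hA hs
  rw [← lintegral_map' hQ.aemeasurable h1, h2, lintegral_withDensity_eq_lintegral_mul _ ?_ hQ]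
  · rfl
  · exact (vf_meas b _).ennreal_ofReal

variable [IsManifold 𝓘(ℝ, E) 1 M]

theorem F_diff (g : M → M) (hg : ContMDiff 𝓘(ℝ, E) 𝓘(ℝ, E) 1 g) (c c' : M) (y : E)
    (hy : y ∈ (extChartAt 𝓘(ℝ, E) c).target)
    (hy' : g ((extChartAt 𝓘(ℝ, E) c).symm y) ∈ (extChartAt 𝓘(ℝ, E) c').source) :
    DifferentiableAt ℝ (extChartAt 𝓘(ℝ, E) c' ∘ g ∘ (extChartAt 𝓘(ℝ, E) c).symm) y := by
  have h1 : ContMDiffOn 𝓘(ℝ, E) 𝓘(ℝ, E) 1 (extChartAt 𝓘(ℝ, E) c).symm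
      (extChartAt 𝓘(ℝ, E) c).target := contMDiffOn_extChartAt_symm c
  have h2 : ContMDiffAt 𝓘(ℝ, E) 𝓘(ℝ, E) 1 (extChartAt 𝓘(ℝ, E) c).symm y :=
    h1.contMDiffAt ((isOpen_extChartAt_target c).mem_nhds hy)
  have h3 : ContMDiffAt 𝓘(ℝ, E) 𝓘(ℝ, E) 1 (g ∘ (extChartAt 𝓘(ℝ, E) c).symm) y :=
    ContMDiffAt.comp y hg.contMDiffAt h2
  have h4 : ContMDiffAt 𝓘(ℝ, E) 𝓘(ℝ, E) 1 (extChartAt 𝓘(ℝ, E) c')
      ((g ∘ (extChartAt 𝓘(ℝ, E) c).symm) y) := by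
    refine contMDiffAt_extChartAt' ?_
    rwa [extChartAt_source] at hy'
  have h5 := ContMDiffAt.comp y h4 h3
  exact (contMDiffAt_iff_contDiffAt.1 h5).differentiableAt (by norm_num)

theorem chain (e : M → EuclideanSpace ℝ (Fin m))
    (he : ContMDiff 𝓘(ℝ, E) 𝓘(ℝ, EuclideanSpace ℝ (Fin m)) 1 e)
    (g : M → M) (hg : ContMDiff 𝓘(ℝ, E) 𝓘(ℝ, E) 1 g) (c c' : M) (y : E)
    (hy : y ∈ (extChartAt 𝓘(ℝ, E) c).target)
    (hy' : g ((extChartAt 𝓘(ℝ, E) c).symm y) ∈ (extChartAt 𝓘(ℝ, E) c').source) :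
    fderiv ℝ (hatMap (e ∘ g) c) y =
      (fderiv ℝ (e ∘ (extChartAt 𝓘(ℝ, E) c').symm)
        ((extChartAt 𝓘(ℝ, E) c' ∘ g ∘ (extChartAt 𝓘(ℝ, E) c).symm) y)).comp
      (fderiv ℝ (extChartAt 𝓘(ℝ, E) c' ∘ g ∘ (extChartAt 𝓘(ℝ, E) c).symm) y) := by
  have h1 := F_diff g hg c c' y hy hy'
  have h2 : DifferentiableAt ℝ (e ∘ (extChartAt 𝓘(ℝ, E) c').symm)
      ((extChartAt 𝓘(ℝ, E) c' ∘ g ∘ (extChartAt 𝓘(ℝ, E) c).symm) y) :=
    (hatMap_contDiffAt e he c' _ ((extChartAt 𝓘(ℝ, E) c').map_source hy')).differentiableAt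
      (by norm_num)
  rw [← fderiv_comp y h2 h1]
  refine Filter.EventuallyEq.fderiv_eq ?_
  have h3 : ContinuousAt (g ∘ (extChartAt 𝓘(ℝ, E) c).symm) y :=
    hg.continuous.continuousAt.comp (continuousAt_extChartAt_symm'' hy)
  filter_upwards [h3.preimage_mem_nhds
    ((isOpen_extChartAt_source (I := 𝓘(ℝ, E)) c').mem_nhds hy')] with z hz
  show e (g ((extChartAt 𝓘(ℝ, E) c).symm z)) = e ((extChartAt 𝓘(ℝ, E) c').symm
    (extChartAt 𝓘(ℝ, E) c' (g ((extChartAt 𝓘(ℝ, E) c).symm z))))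
  have hz' : g ((extChartAt 𝓘(ℝ, E) c).symm z) ∈ (extChartAt 𝓘(ℝ, E) c').source := hz
  rw [(extChartAt 𝓘(ℝ, E) c').left_inv hz']

theorem exp_lj [FiniteDimensional ℝ E] (h0 : PropC0.{u})
    (e : M → EuclideanSpace ℝ (Fin m))
    (he : ContMDiff 𝓘(ℝ, E) 𝓘(ℝ, EuclideanSpace ℝ (Fin m)) 1 e)
    (hinj : ∀ x, Function.Injective (dm E e x))
    (g : M ≃ₜ M) (hg : ContMDiff 𝓘(ℝ, E) 𝓘(ℝ, E) 1 g)
    (hg' : ContMDiff 𝓘(ℝ, E) 𝓘(ℝ, E) 1 g.symm) (c x : M)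
    (hx : x ∈ (extChartAt 𝓘(ℝ, E) c).source) :
    0 < vf b (fderiv ℝ (hatMap e c) (extChartAt 𝓘(ℝ, E) c x)) ∧
    Real.exp (lj b e g x) =
      vf b (fderiv ℝ (hatMap (e ∘ g) c) (extChartAt 𝓘(ℝ, E) c x)) /
        vf b (fderiv ℝ (hatMap e c) (extChartAt 𝓘(ℝ, E) c x)) := by
  have h00 := fun L : E →L[ℝ] EuclideanSpace ℝ (Fin m) => h0 E k m b L
  have hgd : MDifferentiableAt 𝓘(ℝ, E) 𝓘(ℝ, E) g x := hg.mdifferentiableAt (by norm_num)
  have hgd' : MDifferentiableAt 𝓘(ℝ, E) 𝓘(ℝ, E) g.symm (g x) :=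
    hg'.mdifferentiableAt (by norm_num)
  have hed : MDifferentiableAt 𝓘(ℝ, E) 𝓘(ℝ, EuclideanSpace ℝ (Fin m)) e (g x) :=
    he.mdifferentiableAt (by norm_num)
  have hc1 : dm E (e ∘ g) x = (dm E e (g x)).comp (dEnd E g x) := mfderiv_comp x hed hgd
  have hgi : Function.Injective (dEnd E g x) := by
    have h1 : mfderiv 𝓘(ℝ, E) 𝓘(ℝ, E) (g.symm ∘ g) x =
        (mfderiv 𝓘(ℝ, E) 𝓘(ℝ, E) g.symm (g x)).comp (mfderiv 𝓘(ℝ, E) 𝓘(ℝ, E) g x) :=
      mfderiv_comp x hgd' hgd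
    have h2 : (g.symm ∘ g : M → M) = id := by
      funext z
      exact g.symm_apply_apply z
    rw [h2, mfderiv_id] at h1
    intro v w hvw
    have h3 : ∀ v : E, (mfderiv 𝓘(ℝ, E) 𝓘(ℝ, E) g.symm (g x)) (dEnd E g x v) = v := fun v =>
      (DFunLike.congr_fun h1 v).symm
    rw [← h3 v, ← h3 w, hvw]
  have p1 : 0 < vf b (dm E e x) := (h00 _).1 (hinj x)
  have p2 : 0 < vf b (dm E (e ∘ g) x) := by
    rw [hc1]
    exact (h00 _).1 ((hinj (g x)).comp hgi)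
  have e1 : |detD E g x| * vf b (dm E e (g x)) = vf b (dm E (e ∘ g) x) := by
    rw [hc1, (h00 _).2]
    rfl
  have hl : lj b e g x = Real.log (vf b (dm E (e ∘ g) x) / vf b (dm E e x)) := by
    unfold lj
    rw [e1]
  rw [hl, Real.exp_log (div_pos p2 p1)]
  have q : ∀ h : M → EuclideanSpace ℝ (Fin m), ContMDiff 𝓘(ℝ, E) 𝓘(ℝ, EuclideanSpace ℝ (Fin m)) 1 h →
      vf b (dm E h x) = |LinearMap.det (dm E (extChartAt 𝓘(ℝ, E) c) x : E →ₗ[ℝ] E)| *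
        vf b (fderiv ℝ (hatMap h c) (extChartAt 𝓘(ℝ, E) c x)) := by
    intro h hh
    have h1 : dm E h x = (fderiv ℝ (hatMap h c) (extChartAt 𝓘(ℝ, E) c x)).comp
        (dm E (extChartAt 𝓘(ℝ, E) c) x) := by
      ext1 v
      exact hatMap_mfderiv h hh c x hx v
    rw [h1, (h00 _).2]
  have q1 := q e he
  have q2 := q (e ∘ g) (he.comp hg)
  have q3 : |LinearMap.det (dm E (extChartAt 𝓘(ℝ, E) c) x : E →ₗ[ℝ] E)| ≠ 0 := by
    intro h
    rw [q1, h, zero_mul] at p1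
    exact lt_irrefl _ p1
  have q4 : 0 ≤ vf b (fderiv ℝ (hatMap e c) (extChartAt 𝓘(ℝ, E) c x)) := Real.sqrt_nonneg _
  refine ⟨lt_of_le_of_ne q4 fun h => ?_, ?_⟩
  · rw [q1, ← h, mul_zero] at p1
    exact lt_irrefl _ p1
  · rw [q1, q2, mul_div_mul_left _ _ q3]

theorem loc [FiniteDimensional ℝ E] [MeasurableSpace E] [BorelSpace E] [MeasurableSpace M]
    [BorelSpace M] (h0 : PropC0.{u})
    (e : M → EuclideanSpace ℝ (Fin m))
    (he : ContMDiff 𝓘(ℝ, E) 𝓘(ℝ, EuclideanSpace ℝ (Fin m)) 1 e)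
    (hinj : ∀ x, Function.Injective (dm E e x)) (μ : Measure M) (hμ : IsVolE b e μ)
    (g : M ≃ₜ M) (hg : ContMDiff 𝓘(ℝ, E) 𝓘(ℝ, E) 1 g)
    (hg' : ContMDiff 𝓘(ℝ, E) 𝓘(ℝ, E) 1 g.symm) (c c' : M) {A : Set M} (hA : MeasurableSet A)
    (hs : A ⊆ (extChartAt 𝓘(ℝ, E) c).source) (hs' : g '' A ⊆ (extChartAt 𝓘(ℝ, E) c').source) :
    μ (g '' A) = ∫⁻ x in A, ENNReal.ofReal (Real.exp (lj b e g x)) ∂μ := by
  have hgA : MeasurableSet (g '' A) := g.toMeasurableEquiv.measurableSet_image.2 hA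
  obtain ⟨Q, hQ⟩ : ∃ Q : E → ℝ≥0∞, Q = fun y =>
    ENNReal.ofReal (vf b (fderiv ℝ (hatMap (e ∘ g) c) y) / vf b (fderiv ℝ (hatMap e c) y)) :=
    ⟨_, rfl⟩
  have mQ : Measurable Q := by
    rw [hQ]
    exact ((vf_meas b _).div (vf_meas b _)).ennreal_ofReal
  have e1 : ∫⁻ x in A, ENNReal.ofReal (Real.exp (lj b e g x)) ∂μ =
      ∫⁻ x in A, Q (extChartAt 𝓘(ℝ, E) c x) ∂μ := by
    refine setLIntegral_congr_fun hA fun x hx => ?_
    show ENNReal.ofReal (Real.exp (lj b e g x)) = Q (extChartAt 𝓘(ℝ, E) c x)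
    rw [(exp_lj b h0 e he hinj g hg hg' c x (hs hx)).2, hQ]
  rw [e1, lint_eq b e μ hμ c hA hs Q mQ, hμ c' _ hgA hs']
  obtain ⟨F, hF⟩ : ∃ F : E → E, F = extChartAt 𝓘(ℝ, E) c' ∘ g ∘ (extChartAt 𝓘(ℝ, E) c).symm :=
    ⟨_, rfl⟩
  have hFi : ∀ x ∈ A, F (extChartAt 𝓘(ℝ, E) c x) = extChartAt 𝓘(ℝ, E) c' (g x) := by
    intro x hx
    rw [hF]
    show extChartAt 𝓘(ℝ, E) c' (g ((extChartAt 𝓘(ℝ, E) c).symm (extChartAt 𝓘(ℝ, E) c x))) = _
    rw [(extChartAt 𝓘(ℝ, E) c).left_inv (hs hx)]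
  have e2 : (extChartAt 𝓘(ℝ, E) c') '' (g '' A) = F '' ((extChartAt 𝓘(ℝ, E) c) '' A) := by
    rw [image_image, image_image]
    exact image_congr fun x hx => (hFi x hx).symm
  have hin : ∀ y ∈ (extChartAt 𝓘(ℝ, E) c) '' A, y ∈ (extChartAt 𝓘(ℝ, E) c).target ∧
      g ((extChartAt 𝓘(ℝ, E) c).symm y) ∈ (extChartAt 𝓘(ℝ, E) c').source := by
    rintro y ⟨x, hx, rfl⟩
    refine ⟨(extChartAt 𝓘(ℝ, E) c).map_source (hs hx), ?_⟩
    rw [(extChartAt 𝓘(ℝ, E) c).left_inv (hs hx)]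
    exact hs' ⟨x, hx, rfl⟩
  have hinjF : InjOn F ((extChartAt 𝓘(ℝ, E) c) '' A) := by
    rintro _ ⟨x, hx, rfl⟩ _ ⟨x', hx', rfl⟩ h
    rw [hFi x hx, hFi x' hx'] at h
    have h1 := (extChartAt 𝓘(ℝ, E) c').injOn (hs' ⟨x, hx, rfl⟩) (hs' ⟨x', hx', rfl⟩) h
    rw [g.injective h1]
  have hder : ∀ y ∈ (extChartAt 𝓘(ℝ, E) c) '' A, HasFDerivWithinAt F (fderiv ℝ F y)
      ((extChartAt 𝓘(ℝ, E) c) '' A) y := by
    intro y hy
    rw [hF]
    exact (F_diff g hg c c' y (hin y hy).1 (hin y hy).2).hasFDerivAt.hasFDerivWithinAt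
  rw [e2, lintegral_image_eq_lintegral_abs_det_fderiv_mul b.addHaar (img_meas c hA hs) hder hinjF]
  refine setLIntegral_congr_fun (img_meas c hA hs) ?_
  rintro _ ⟨x, hx, rfl⟩
  obtain ⟨hpos, -⟩ := exp_lj b h0 e he hinj g hg hg' c x (hs hx)
  set y := extChartAt 𝓘(ℝ, E) c x with hy
  have hyA : y ∈ (extChartAt 𝓘(ℝ, E) c) '' A := ⟨x, hx, rfl⟩
  have h1 := chain e he g hg c c' y (hin y hyA).1 (hin y hyA).2
  show ENNReal.ofReal |(fderiv ℝ F y).det| *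
      ENNReal.ofReal (vf b (fderiv ℝ (e ∘ (extChartAt 𝓘(ℝ, E) c').symm) (F y))) =
    ENNReal.ofReal (vf b (fderiv ℝ (e ∘ (extChartAt 𝓘(ℝ, E) c).symm) y)) * Q y
  rw [← ENNReal.ofReal_mul (abs_nonneg _), hQ]
  show _ = ENNReal.ofReal (vf b (fderiv ℝ (hatMap e c) y)) *
    ENNReal.ofReal (vf b (fderiv ℝ (hatMap (e ∘ g) c) y) / vf b (fderiv ℝ (hatMap e c) y))
  rw [← ENNReal.ofReal_mul hpos.le, mul_div_cancel₀ _ hpos.ne', h1, (h0 E k m b _).2, hF]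

end

end Pool.Agent.W733.JA.C2P

namespace Pool.Agent.W733.JA

open Pool.Agent.H721R2 Pool.Agent.H789R2.AN

universe u v

/-- JC2: change of variables -/
theorem c2 (h0 : PropC0.{u}) : PropC2.{u, v} := by
  intro E _ _ _ _ _ M _ _ _ _ _ _ _ k m b e he hinj μ hμ g hg hg' A hA
  have he1 : ContMDiff 𝓘(ℝ, E) 𝓘(ℝ, EuclideanSpace ℝ (Fin m)) 1 e := he.of_le (by simp)
  obtain ⟨U, hU⟩ : ∃ U : M → Set M, U = fun x =>
    (extChartAt 𝓘(ℝ, E) x).source ∩ g ⁻¹' (extChartAt 𝓘(ℝ, E) (g x)).source := ⟨_, rfl⟩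
  have hUo : ∀ x, IsOpen (U x) := fun x => by
    rw [hU]
    exact (isOpen_extChartAt_source x).inter ((isOpen_extChartAt_source (g x)).preimage
      g.continuous)
  have hUm : ∀ x, U x ∈ 𝓝 x := fun x => (hUo x).mem_nhds (by
    rw [hU]
    exact ⟨mem_extChartAt_source x, mem_extChartAt_source (g x)⟩)
  obtain ⟨t, ht⟩ := CompactSpace.elim_nhds_subcover U hUm
  have key : Measure.map g.symm μ = μ.withDensity fun x => ENNReal.ofReal (Real.exp (lj b e g x)) := by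
    refine Measure.ext_of_biUnion_eq_univ (S := (t : Set M)) (s := U) t.countable_toSet ?_ ?_
    · exact ht
    · intro x _
      refine Measure.ext fun B hB => ?_
      have hBU : MeasurableSet (B ∩ U x) := hB.inter (hUo x).measurableSet
      rw [Measure.restrict_apply hB, Measure.restrict_apply hB, withDensity_apply _ hBU,
        Measure.map_apply g.symm.continuous.measurable hBU]
      have h1 : g.symm ⁻¹' (B ∩ U x) = g '' (B ∩ U x) := (g.image_eq_preimage_symm _).symm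
      rw [h1]
      refine C2P.loc b h0 e he1 hinj μ hμ g hg hg' x (g x) hBU ?_ ?_
      · rintro z ⟨-, hz⟩
        rw [hU] at hz
        exact hz.1
      · rintro _ ⟨z, ⟨-, hz⟩, rfl⟩
        rw [hU] at hz
        exact hz.2
  have h2 := congrArg (fun ν : Measure M => ν A) key
  rw [withDensity_apply _ hA, Measure.map_apply g.symm.continuous.measurable hA,
    ← g.image_eq_preimage_symm] at h2
  exact h2

end Pool.Agent.W733.JA
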