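import Pool.Agent.W733.JA.Stmts

/-!
# JC3: the log-Jacobian of a `C²` diffeomorphism is `C¹`
-/

set_option autoImplicit false

open scoped Manifold ContDiff Topology ENNReal
open Set Filter MeasureTheory Metric Module

namespace Pool.Agent.W733.JA

open Pool.Agent.H721R2 Pool.Agent.H789R2.AN

universe u v

lemma two_le_inf : (2 : WithTop ℕ∞) ≤ ((⊤ : ℕ∞) : WithTop ℕ∞) := by
  have h : ((2 : ℕ∞) : WithTop ℕ∞) ≤ ((⊤ : ℕ∞) : WithTop ℕ∞) := WithTop.coe_le_coe.mpr le_top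
  exact h

section

variable {E : Type u} [NormedAddCommGroup E] [NormedSpace ℝ E]

/-- `vf` depends in a `C¹` way on the linear map -/
lemma vf_contDiffAt {k m : ℕ} (b : Basis (Fin k) ℝ E) (L : E → E →L[ℝ] EuclideanSpace ℝ (Fin m))
    (y : E) (hL : ContDiffAt ℝ 1 L y) (hpos : 0 < vf b (L y)) :
    ContDiffAt ℝ 1 (fun z => vf b (L z)) y := by
  unfold vf at hpos ⊢
  have hdet : ContDiffAt ℝ 1 (fun z => Matrix.det (Matrix.of fun i j : Fin k =>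
      (inner ℝ (L z (b i)) (L z (b j)) : ℝ))) y := by
    simp only [Matrix.det_apply]
    apply ContDiffAt.sum
    intro σ _
    apply ContDiffAt.const_smul
    apply contDiffAt_prod
    intro i _
    simp only [Matrix.of_apply]
    exact (hL.clm_apply contDiffAt_const).inner ℝ (hL.clm_apply contDiffAt_const)
  exact hdet.sqrt (Real.sqrt_pos.mp hpos).ne'

variable {M : Type v} [TopologicalSpace M] [ChartedSpace E M] [IsManifold 𝓘(ℝ, E) ∞ M]

lemma hatMap_contDiffAt2 {F : Type*} [NormedAddCommGroup F] [NormedSpace ℝ F] (h : M → F)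
    (hh : ContMDiff 𝓘(ℝ, E) 𝓘(ℝ, F) 2 h) (x₀ : M) (p : E)
    (hp : p ∈ (extChartAt 𝓘(ℝ, E) x₀).target) : ContDiffAt ℝ 2 (hatMap h x₀) p := by
  haveI : IsManifold 𝓘(ℝ, E) 2 M := IsManifold.of_le (n := ∞) two_le_inf
  rw [← contMDiffAt_iff_contDiffAt]
  have h1 : ContMDiffOn 𝓘(ℝ, E) 𝓘(ℝ, E) 2 (extChartAt 𝓘(ℝ, E) x₀).symm
      (extChartAt 𝓘(ℝ, E) x₀).target := contMDiffOn_extChartAt_symm x₀
  have h2 : ContMDiffAt 𝓘(ℝ, E) 𝓘(ℝ, E) 2 (extChartAt 𝓘(ℝ, E) x₀).symm p :=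
    h1.contMDiffAt ((isOpen_extChartAt_target x₀).mem_nhds hp)
  exact ContMDiffAt.comp p hh.contMDiffAt h2

/-- the derivative of the chart -/
lemma chart_factor {F : Type*} [NormedAddCommGroup F] [NormedSpace ℝ F] (h : M → F)
    (hh : ContMDiff 𝓘(ℝ, E) 𝓘(ℝ, F) 1 h) (x₀ x : M)
    (hx : x ∈ (extChartAt 𝓘(ℝ, E) x₀).source) :
    dm E h x = (fderiv ℝ (hatMap h x₀) (extChartAt 𝓘(ℝ, E) x₀ x)).comp
      (dm E (extChartAt 𝓘(ℝ, E) x₀) x) := by
  haveI : IsManifold 𝓘(ℝ, E) 1 M := IsManifold.of_le (n := ∞) (by exact_mod_cast le_top)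
  ext v
  exact hatMap_mfderiv h hh x₀ x hx v

end

theorem c3 (h0 : PropC0.{u}) : PropC3.{u, v} := by
  intro E _ _ _ M _ _ _ k m b e he hinj g hg hg'
  haveI : IsManifold 𝓘(ℝ, E) 1 M := IsManifold.of_le (n := ∞) (by exact_mod_cast le_top)
  have he2 : ContMDiff 𝓘(ℝ, E) 𝓘(ℝ, EuclideanSpace ℝ (Fin m)) 2 e :=
    he.of_le two_le_inf
  have he1 : ContMDiff 𝓘(ℝ, E) 𝓘(ℝ, EuclideanSpace ℝ (Fin m)) 1 e :=
    he.of_le (by exact_mod_cast le_top)
  have hg1 : ContMDiff 𝓘(ℝ, E) 𝓘(ℝ, E) 1 g := hg.of_le (by norm_num)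
  have heg2 : ContMDiff 𝓘(ℝ, E) 𝓘(ℝ, EuclideanSpace ℝ (Fin m)) 2 (e ∘ g) := he2.comp hg
  have heg1 : ContMDiff 𝓘(ℝ, E) 𝓘(ℝ, EuclideanSpace ℝ (Fin m)) 1 (e ∘ g) := he1.comp hg1
  -- injectivity
  have hginj : ∀ x, Function.Injective (dEnd E g x) := by
    intro x a c hac
    have h1 := dg_inv (E₀ := E) (g : M → M) (g.symm : M → M) hg1 hg' (fun y => g.symm_apply_apply y) x a
    have h2 := dg_inv (E₀ := E) (g : M → M) (g.symm : M → M) hg1 hg' (fun y => g.symm_apply_apply y) x c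
    have h3 : dg E (g : M → M) x a = dg E (g : M → M) x c := hac
    rw [← h1, ← h2, h3]
  have hcomp : ∀ x, dm E (e ∘ g) x = (dm E e (g x)).comp (dEnd E g x) := by
    intro x
    exact ContinuousLinearMap.ext fun v => dm_comp (E₀ := E) e he1 (g : M → M) hg1 x v
  have heginj : ∀ x, Function.Injective (dm E (e ∘ g) x) := by
    intro x
    rw [hcomp x]
    exact (hinj (g x)).comp (hginj x)
  intro x₀
  set φ := extChartAt 𝓘(ℝ, E) x₀ with hφ
  have hx₀ : x₀ ∈ φ.source := mem_extChartAt_source x₀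
  -- the invertible derivative of the chart
  have hA : ∀ x ∈ φ.source, ∃ A : E ≃L[ℝ] E, (A : E →L[ℝ] E) = dm E φ x := by
    intro x hx
    obtain ⟨A, hA⟩ := isInvertible_mfderiv_extChartAt (I := 𝓘(ℝ, E)) hx
    exact ⟨A, hA⟩
  -- formula near `x₀`
  have hform : ∀ x ∈ φ.source, lj b e g x
      = Real.log (vf b (fderiv ℝ (hatMap (e ∘ g) x₀) (φ x)) / vf b (fderiv ℝ (hatMap e x₀) (φ x))) := by
    intro x hx
    obtain ⟨A, hA⟩ := hA x hx
    have hdet : |LinearMap.det ((dm E φ x : E →L[ℝ] E) : E →ₗ[ℝ] E)| ≠ 0 := by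
      rw [← hA]
      exact abs_ne_zero.mpr (LinearEquiv.isUnit_det' A.toLinearEquiv).ne_zero
    have e1 : |detD E g x| * vf b (dm E e (g x)) = vf b (dm E (e ∘ g) x) := by
      rw [hcomp x, (h0 E k m b (dm E e (g x))).2 (dEnd E g x)]
      rfl
    have e2 : vf b (dm E (e ∘ g) x) = |LinearMap.det ((dm E φ x : E →L[ℝ] E) : E →ₗ[ℝ] E)| *
        vf b (fderiv ℝ (hatMap (e ∘ g) x₀) (φ x)) := by
      rw [chart_factor (e ∘ g) heg1 x₀ x hx]
      exact (h0 E k m b _).2 _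
    have e3 : vf b (dm E e x) = |LinearMap.det ((dm E φ x : E →L[ℝ] E) : E →ₗ[ℝ] E)| *
        vf b (fderiv ℝ (hatMap e x₀) (φ x)) := by
      rw [chart_factor e he1 x₀ x hx]
      exact (h0 E k m b _).2 _
    unfold lj
    rw [e1, e2, e3, mul_div_mul_left _ _ hdet]
  -- smoothness in the chart
  have hinjf : ∀ h : M → EuclideanSpace ℝ (Fin m), ContMDiff 𝓘(ℝ, E) 𝓘(ℝ, EuclideanSpace ℝ (Fin m)) 1 h →
      Function.Injective (dm E h x₀) → 0 < vf b (fderiv ℝ (hatMap h x₀) (φ x₀)) := by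
    intro h hh hi
    refine (h0 E k m b _).1 ?_
    obtain ⟨A, hA⟩ := hA x₀ hx₀
    have h1 := chart_factor h hh x₀ x₀ hx₀
    intro a c hac
    have h2 : dm E h x₀ (A.symm a) = dm E h x₀ (A.symm c) := by
      rw [h1, ← hφ, ← hA]
      simpa using hac
    exact A.symm.injective (hi h2)
  have hcd : ∀ h : M → EuclideanSpace ℝ (Fin m), ContMDiff 𝓘(ℝ, E) 𝓘(ℝ, EuclideanSpace ℝ (Fin m)) 2 h →
      Function.Injective (dm E h x₀) →
      ContDiffAt ℝ 1 (fun y => vf b (fderiv ℝ (hatMap h x₀) y)) (φ x₀) := by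
    intro h hh hi
    refine vf_contDiffAt b _ _ ?_ (hinjf h (hh.of_le (by norm_num)) hi)
    exact (hatMap_contDiffAt2 h hh x₀ (φ x₀) (φ.map_source hx₀)).fderiv_right (by norm_num)
  have hΦ : ContDiffAt ℝ 1 (fun y => Real.log (vf b (fderiv ℝ (hatMap (e ∘ g) x₀) y) /
      vf b (fderiv ℝ (hatMap e x₀) y))) (φ x₀) := by
    have p1 := hinjf (e ∘ g) heg1 (heginj x₀)
    have p2 := hinjf e he1 (hinj x₀)
    exact ((hcd (e ∘ g) heg2 (heginj x₀)).div (hcd e he2 (hinj x₀)) p2.ne').log (div_pos p1 p2).ne'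
  have hcomp2 : ContMDiffAt 𝓘(ℝ, E) 𝓘(ℝ, ℝ) 1 ((fun y => Real.log (vf b (fderiv ℝ (hatMap (e ∘ g) x₀) y) /
      vf b (fderiv ℝ (hatMap e x₀) y))) ∘ φ) x₀ := by
    refine ContMDiffAt.comp x₀ (contMDiffAt_iff_contDiffAt.mpr hΦ) ?_
    exact contMDiffAt_extChartAt
  refine hcomp2.congr_of_eventuallyEq ?_
  filter_upwards [(isOpen_extChartAt_source (I := 𝓘(ℝ, E)) x₀).mem_nhds hx₀] with x hx
  exact hform x hx

end Pool.Agent.W733.JA
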