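import Pool.Agent.W733.JA.Stmts

/-!
# Project JA, part C5: the Birkhoff sum of the log-Jacobian along a periodic orbit
-/

set_option autoImplicit false

open scoped Manifold ContDiff Topology ENNReal
open Set Filter MeasureTheory Metric Module

namespace Pool.Agent.W733.JA

open Pool.Agent.H721R2 Pool.Agent.H789R2.AN

universe u v w

namespace C5x

variable {E : Type u} [NormedAddCommGroup E] [NormedSpace ℝ E]
    {M : Type v} [TopologicalSpace M] [ChartedSpace E M]

theorem det_comp (f g : M → M) (x : M)
    (hf : MDifferentiableAt 𝓘(ℝ, E) 𝓘(ℝ, E) f (g x))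
    (hg : MDifferentiableAt 𝓘(ℝ, E) 𝓘(ℝ, E) g x) :
    detD E (f ∘ g) x = detD E f (g x) * detD E g x := by
  have h1 : dEnd E (f ∘ g) x = (dEnd E f (g x)).comp (dEnd E g x) := mfderiv_comp x hf hg
  unfold detD
  rw [h1, ContinuousLinearMap.toLinearMap_comp, LinearMap.det_comp]

theorem det_id (x : M) : detD E (id : M → M) x = 1 := by
  have h1 : dEnd E (id : M → M) x = ContinuousLinearMap.id ℝ E := mfderiv_id
  unfold detD
  rw [h1]
  exact LinearMap.det_id

theorem det_ne (g : M ≃ₜ M) (hg : ContMDiff 𝓘(ℝ, E) 𝓘(ℝ, E) 1 g)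
    (hg' : ContMDiff 𝓘(ℝ, E) 𝓘(ℝ, E) 1 g.symm) (x : M) : detD E g x ≠ 0 := by
  have h1 := det_comp (E := E) g.symm g x (hg'.mdifferentiableAt one_ne_zero)
    (hg.mdifferentiableAt one_ne_zero)
  have h2 : (g.symm ∘ g : M → M) = id := by
    funext y
    exact g.symm_apply_apply y
  rw [h2, det_id] at h1
  intro h0
  rw [h0, mul_zero] at h1
  exact one_ne_zero h1

theorem smooth_iter (g : M → M) (hg : ContMDiff 𝓘(ℝ, E) 𝓘(ℝ, E) 1 g) (n : ℕ) :
    ContMDiff 𝓘(ℝ, E) 𝓘(ℝ, E) 1 (g^[n]) := by
  induction n with
  | zero => exact contMDiff_id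
  | succ n ih =>
    rw [Function.iterate_succ']
    exact hg.comp ih

end C5x

theorem c5 (h0 : PropC0.{u}) : PropC5.{u, v} := by
  intro E _ _ _ M _ _ _ k m b e he g hg hg' n p hp
  have hV : ∀ x : M, 0 < vf b (dm E e x) := fun x => (h0 E k m b (dm E e x)).1 (he x)
  have key : ∀ n : ℕ, bsum g (lj b e g) n p = Real.log |detD E (g^[n]) p| +
      Real.log (vf b (dm E e (g^[n] p))) - Real.log (vf b (dm E e p)) := by
    intro n
    induction n with
    | zero =>
      have h1 : detD E (g^[0]) p = 1 := C5x.det_id p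
      unfold bsum
      rw [Finset.sum_range_zero, h1, abs_one, Real.log_one, Function.iterate_zero_apply]
      ring
    | succ n ih =>
      have h1 : detD E (g^[n + 1]) p = detD E g (g^[n] p) * detD E (g^[n]) p := by
        rw [Function.iterate_succ']
        exact C5x.det_comp g (g^[n]) p (hg.mdifferentiableAt one_ne_zero)
          ((C5x.smooth_iter g hg n).mdifferentiableAt one_ne_zero)
      have h2 : bsum g (lj b e g) (n + 1) p =
          bsum g (lj b e g) n p + lj b e g (g^[n] p) := Finset.sum_range_succ _ _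
      have hd := C5x.det_ne g hg hg' (g^[n] p)
      have hdn : detD E (g^[n]) p ≠ 0 := by
        have : ∀ n : ℕ, detD E (g^[n]) p ≠ 0 := by
          intro n
          induction n with
          | zero =>
            have h1 : detD E (g^[0]) p = 1 := C5x.det_id p
            rw [h1]
            exact one_ne_zero
          | succ n ih' =>
            have h1 : detD E (g^[n + 1]) p = detD E g (g^[n] p) * detD E (g^[n]) p := by
              rw [Function.iterate_succ']
              exact C5x.det_comp g (g^[n]) p (hg.mdifferentiableAt one_ne_zero)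
                ((C5x.smooth_iter g hg n).mdifferentiableAt one_ne_zero)
            rw [h1]
            exact mul_ne_zero (C5x.det_ne g hg hg' (g^[n] p)) ih'
        exact this n
      have h3 : lj b e g (g^[n] p) = Real.log |detD E g (g^[n] p)| +
          Real.log (vf b (dm E e (g^[n + 1] p))) - Real.log (vf b (dm E e (g^[n] p))) := by
        unfold lj
        rw [Real.log_div (mul_ne_zero (abs_ne_zero.2 hd) (hV _).ne') (hV _).ne',
          Real.log_mul (abs_ne_zero.2 hd) (hV _).ne', Function.iterate_succ_apply']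
      rw [h2, ih, h3, h1, abs_mul, Real.log_mul (abs_ne_zero.2 hd) (abs_ne_zero.2 hdn)]
      ring
  rw [key, hp]
  ring

end Pool.Agent.W733.JA
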