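import Pool.Agent.W733.JA.Stmts
import Pool.Agent.W733.JA.A4

/-!
# Abstract form: periodic data and attractors
-/

set_option autoImplicit false

open scoped Manifold ContDiff Topology ENNReal
open Set Filter MeasureTheory Metric Module

namespace Pool.Agent.W733.JA

open Pool.Agent.H721R2 Pool.Agent.H789R2.AN

universe u v w

theorem bsum_succ {X : Type*} (g : X → X) (ψ : X → ℝ) (n : ℕ) (x : X) :
    bsum g ψ (n + 1) x = ψ x + bsum g ψ n (g x) := by
  unfold bsum
  rw [Finset.sum_range_succ', add_comm]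
  rfl

theorem bsum_mul {X : Type*} (g : X → X) (ψ : X → ℝ) (N n : ℕ) (x : X) :
    bsum (g^[N]) (bsum g ψ N) n x = bsum g ψ (N * n) x := by
  induction n with
  | zero => simp [bsum]
  | succ n ih =>
    have h1 : bsum (g^[N]) (bsum g ψ N) (n + 1) x =
        bsum (g^[N]) (bsum g ψ N) n x + bsum g ψ N ((g^[N])^[n] x) :=
      Finset.sum_range_succ _ _
    rw [h1, ih, Nat.mul_succ, bsum_add, Function.iterate_mul]

theorem geom_refl (l : ℕ) : ∑ k ∈ Finset.range l, (1 / 2 : ℝ) ^ (l - k) = 1 - (1 / 2) ^ l := by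
  induction l with
  | zero => simp
  | succ l ih =>
    rw [Finset.sum_range_succ']
    simp only [Nat.add_sub_add_right, Nat.sub_zero]
    rw [ih, pow_succ]
    ring

theorem geom_bound (l : ℕ) :
    ∑ k ∈ Finset.range l, ((1 / 2 : ℝ) ^ k + (1 / 2) ^ (l - k)) ≤ 3 := by
  rw [Finset.sum_add_distrib, geom_refl, geom_sum_eq (by norm_num)]
  have h0 : (0 : ℝ) ≤ (1 / 2) ^ l := by positivity
  have h1 : ((1 / 2 : ℝ) ^ l - 1) / (1 / 2 - 1) = 2 - 2 * (1 / 2) ^ l := by ring
  rw [h1]
  linarith

/-- Periodic data with nonnegative Birkhoff sums exclude proper attractors. -/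
theorem att_univ (h1 : PropA1.{u, v}) (h2 : PropA2.{u}) (h3 : PropA3.{u}) (h4 : PropA4.{u})
    {X : Type u} {F : Type v} [MetricSpace X] [CompactSpace X] [ConnectedSpace X]
    [MeasurableSpace X] [BorelSpace X] [NormedAddCommGroup F] [NormedSpace ℝ F] (S : HypSys X F)
    (m : Measure X) [IsFiniteMeasure m] (hpos : ∀ U : Set X, IsOpen U → U.Nonempty → m U ≠ 0)
    (ψ : X → ℝ) (L : ℝ) (hL : ∀ x y, |ψ x - ψ y| ≤ L * dist x y) (hJ : HasLogJac m S.g ψ)
    (hper : ∀ (n : ℕ) (p : X), S.g^[n] p = p → 0 ≤ bsum S.g ψ n p)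
    (A : Set X) (hA : IsAtt S.g A) : A = univ := by
  obtain ⟨c, hc⟩ := exists_LP S
  by_contra hne
  obtain ⟨W, hWo, hWn, hW⟩ := h2 X S.g c hc A hA hne m
  have hL0 : ∀ x y, |ψ x - ψ y| ≤ max L 0 * dist x y := fun x y =>
    (hL x y).trans (mul_le_mul_of_nonneg_right (le_max_left _ _) dist_nonneg)
  set L' := max L 0 with hL'
  have hL'0 : 0 ≤ L' := le_max_right _ _
  have hψ : Continuous ψ := by
    rw [Metric.continuous_iff]
    intro x ε hε
    refine ⟨ε / (L' + 1), by positivity, fun y hy => ?_⟩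
    rw [Real.dist_eq]
    refine (hL0 y x).trans_lt ?_
    calc L' * dist y x ≤ (L' + 1) * dist y x :=
          mul_le_mul_of_nonneg_right (by linarith) dist_nonneg
      _ < (L' + 1) * (ε / (L' + 1)) := mul_lt_mul_of_pos_left hy (by positivity)
      _ = ε := by field_simp
  obtain ⟨x, -, hx⟩ := h3 X S.g m ψ hψ hJ W hWo.measurableSet (hpos W hWo hWn) hW
  obtain ⟨C, hC, δ, hδ, h5⟩ := h1 X F S
  obtain ⟨i, l, hl, hd, hb⟩ := h4 X S.g ψ x hx (3 * (L' * C) + 1) δ hδ
  set y := S.g^[i] x with hy
  obtain ⟨p, hp, hpy⟩ := h5 y l hl hd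
  have h6 : |bsum S.g ψ l p - bsum S.g ψ l y| ≤ 3 * (L' * C) := by
    unfold bsum
    rw [← Finset.sum_sub_distrib]
    calc |∑ k ∈ Finset.range l, (ψ (S.g^[k] p) - ψ (S.g^[k] y))|
        ≤ ∑ k ∈ Finset.range l, |ψ (S.g^[k] p) - ψ (S.g^[k] y)| :=
          Finset.abs_sum_le_sum_abs _ _
      _ ≤ ∑ k ∈ Finset.range l, L' * (C * ((1 / 2) ^ k + (1 / 2) ^ (l - k))) := by
          refine Finset.sum_le_sum fun k hk => ?_
          exact (hL0 _ _).trans (mul_le_mul_of_nonneg_left
            (hpy k (Finset.mem_range.mp hk).le) hL'0)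
      _ = L' * C * ∑ k ∈ Finset.range l, ((1 / 2 : ℝ) ^ k + (1 / 2) ^ (l - k)) := by
          rw [Finset.mul_sum]
          refine Finset.sum_congr rfl fun k _ => ?_
          ring
      _ ≤ L' * C * 3 := mul_le_mul_of_nonneg_left (geom_bound l) (by positivity)
      _ = 3 * (L' * C) := by ring
  have h7 := hper l p hp
  have h8 := abs_le.mp h6
  linarith [h8.2]

/-- iterates -/
theorem hasLogJac_iter {X : Type*} [TopologicalSpace X] [MeasurableSpace X] [BorelSpace X]
    (g : X ≃ₜ X) (m : Measure X) (ψ : X → ℝ) (hψ : Continuous ψ) (hJ : HasLogJac m g ψ) (n : ℕ) :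
    HasLogJac m (g^[n]) (bsum g ψ n) := by
  -- change of variables for functions
  have hmeas : m.map g.symm = m.withDensity (fun x => ENNReal.ofReal (Real.exp (ψ x))) := by
    ext A hA
    rw [Measure.map_apply g.symm.continuous.measurable hA, withDensity_apply _ hA, ← hJ A hA]
    congr 1
    exact (g.image_eq_preimage_symm A).symm
  have hcv : ∀ (h : X → ENNReal) (_ : Measurable h) (A : Set X) (_ : MeasurableSet A),
      ∫⁻ x in g '' A, h x ∂m = ∫⁻ x in A, h (g x) * ENNReal.ofReal (Real.exp (ψ x)) ∂m := by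
    intro h hh A hA
    have hhg : Measurable (fun x => h (g x)) := hh.comp g.continuous.measurable
    have e1 : ∫⁻ x in A, h (g x) ∂(m.map g.symm) = ∫⁻ x in g '' A, h x ∂m := by
      have e2 : g '' A = g.symm ⁻¹' A := g.image_eq_preimage_symm A
      rw [Measure.restrict_map g.symm.continuous.measurable hA, lintegral_map
        hhg g.symm.continuous.measurable, e2]
      simp only [g.apply_symm_apply]
    rw [← e1, hmeas, restrict_withDensity hA,
      lintegral_withDensity_eq_lintegral_mul₀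
        (f := fun x => ENNReal.ofReal (Real.exp (ψ x))) (g := fun x => h (g x)) (by fun_prop)
        hhg.aemeasurable]
    refine lintegral_congr fun x => ?_
    simp only [Pi.mul_apply]
    rw [mul_comm]
  induction n with
  | zero =>
    intro A hA
    simp [bsum]
  | succ n ih =>
    intro A hA
    have hb : Continuous (bsum g ψ n) := by
      unfold bsum
      exact continuous_finsetSum _ fun i _ => hψ.comp (g.continuous.iterate i)
    rw [Function.iterate_succ, image_comp, ih _ (g.measurableEmbedding.measurableSet_image.mpr hA),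
      hcv _ (by fun_prop) A hA]
    refine lintegral_congr fun x => ?_
    rw [← ENNReal.ofReal_mul (Real.exp_nonneg _), ← Real.exp_add, bsum_succ, add_comm]

theorem hasLogJac_symm {X : Type*} [TopologicalSpace X] [MeasurableSpace X] [BorelSpace X]
    (g : X ≃ₜ X) (m : Measure X) (ψ : X → ℝ) (hψ : Continuous ψ) (hJ : HasLogJac m g ψ) :
    HasLogJac m g.symm (fun x => -ψ (g.symm x)) := by
  have hmeas : m.map g.symm = m.withDensity (fun x => ENNReal.ofReal (Real.exp (ψ x))) := by
    ext A hA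
    rw [Measure.map_apply g.symm.continuous.measurable hA, withDensity_apply _ hA, ← hJ A hA]
    congr 1
    exact (g.image_eq_preimage_symm A).symm
  intro A hA
  -- A = g '' B
  set B := g.symm '' A with hB
  have hBm : MeasurableSet B := g.symm.measurableEmbedding.measurableSet_image.mpr hA
  have hBA : g '' B = A := by
    rw [hB, ← image_comp]
    simp
  have hh : Measurable (fun x => ENNReal.ofReal (Real.exp (-ψ (g.symm x)))) := by
    have := hψ.comp g.symm.continuous
    fun_prop
  have e1 : ∫⁻ x in B, ENNReal.ofReal (Real.exp (-ψ x)) ∂(m.map g.symm) =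
      ∫⁻ x in g '' B, ENNReal.ofReal (Real.exp (-ψ (g.symm x))) ∂m := by
    have e2 : g '' B = g.symm ⁻¹' B := g.image_eq_preimage_symm B
    rw [Measure.restrict_map g.symm.continuous.measurable hBm, lintegral_map
      (by fun_prop) g.symm.continuous.measurable, e2]
  rw [← hBA, ← e1, hmeas, restrict_withDensity hBm,
    lintegral_withDensity_eq_lintegral_mul₀
      (f := fun x => ENNReal.ofReal (Real.exp (ψ x)))
      (g := fun x => ENNReal.ofReal (Real.exp (-ψ x))) (by fun_prop) (by fun_prop)]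
  have e3 : ∫⁻ x in B, ((fun x => ENNReal.ofReal (Real.exp (ψ x))) *
      fun x => ENNReal.ofReal (Real.exp (-ψ x))) x ∂m = ∫⁻ x in B, 1 ∂m := by
    refine lintegral_congr fun x => ?_
    simp only [Pi.mul_apply]
    rw [← ENNReal.ofReal_mul (Real.exp_nonneg _), ← Real.exp_add, add_neg_cancel, Real.exp_zero,
      ENNReal.ofReal_one]
  rw [e3, setLIntegral_one]

end Pool.Agent.W733.JA
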