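import Pool.Agent.W733.JA.Abs

/-!
# Periodic Jacobians and transitivity: assembly
-/

set_option autoImplicit false

open scoped Manifold ContDiff Topology ENNReal
open Set Filter MeasureTheory Metric Module

namespace Pool.Agent.W733.JA

open Pool.Agent.H721R2 Pool.Agent.H789R2.AN

universe u v w

theorem iter_iterHomeo {X : Type*} [TopologicalSpace X] {f g : X ≃ₜ X} {N : ℕ}
    (hg : ∀ x, g x = f^[N] x) (k : ℕ) : (g^[k] : X → X) = f^[N * k] := by
  have h6 : (g : X → X) = f^[N] := funext hg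
  rw [h6, Function.iterate_mul]

/-- Measure form, on a closed connected manifold. -/
theorem main_measure (h1 : PropA1.{v, 0}) (h2 : PropA2.{v}) (h3 : PropA3.{v}) (h4 : PropA4.{v})
    (hC4 : PropC4.{u, v})
    {E : Type u} [NormedAddCommGroup E] [NormedSpace ℝ E] [FiniteDimensional ℝ E]
    {M : Type v} [TopologicalSpace M] [T2Space M] [CompactSpace M] [ConnectedSpace M]
    [ChartedSpace E M] [IsManifold 𝓘(ℝ, E) ∞ M] [MeasurableSpace M] [BorelSpace M]
    (f : Diffeomorph 𝓘(ℝ, E) 𝓘(ℝ, E) M M 1)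
    (Es Eu : ∀ x : M, Submodule ℝ (TangentSpace 𝓘(ℝ, E) x)) (hA : IsAnosov f Es Eu)
    (m : Measure M) [IsFiniteMeasure m] (hpos : ∀ U : Set M, IsOpen U → U.Nonempty → m U ≠ 0)
    (ψ : M → ℝ) (hψ : ContMDiff 𝓘(ℝ, E) 𝓘(ℝ, ℝ) 1 ψ) (hJ : HasLogJac m f ψ)
    (hper : (∀ (n : ℕ) (p : M), f^[n] p = p → 0 ≤ bsum f ψ n p) ∨
      ∀ (n : ℕ) (p : M), f^[n] p = p → bsum f ψ n p ≤ 0) : TopTransitive f := by
  obtain ⟨k, e, he, hemb, hinj⟩ := exists_embedding_euclidean_of_compact (I := 𝓘(ℝ, E)) (M := M)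
  let _ : MetricSpace M := hemb.isEmbedding.comapMetricSpace e
  have hiso : ∀ x y : M, dist x y = ‖e x - e y‖ := fun x y => dist_eq_norm (e x) (e y)
  have he1 : ContMDiff 𝓘(ℝ, E) (𝓡 k) 1 e := he.of_le (by simp)
  obtain ⟨N, S, hS, -, -, -⟩ := exists_sys hiso he1 hinj f Es Eu hA
  have hgi : ∀ x, S.g x = f.toHomeomorph^[N] x := fun x => by
    rw [hS]; rfl
  have hgf : (S.g : M → M) = f^[N] := funext hgi
  -- smoothness of the Birkhoff sums
  have hfsm : ∀ n : ℕ, ContMDiff 𝓘(ℝ, E) 𝓘(ℝ, E) 1 (f^[n]) := by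
    intro n
    induction n with
    | zero => exact contMDiff_id
    | succ n ih => rw [Function.iterate_succ']; exact f.contMDiff_toFun.comp ih
  have hfsm' : ∀ n : ℕ, ContMDiff 𝓘(ℝ, E) 𝓘(ℝ, E) 1 (f.symm^[n]) := by
    intro n
    induction n with
    | zero => exact contMDiff_id
    | succ n ih => rw [Function.iterate_succ']; exact f.symm.contMDiff_toFun.comp ih
  have hbsm : ContMDiff 𝓘(ℝ, E) 𝓘(ℝ, ℝ) 1 (bsum f ψ N) := by
    have h5 : ∀ n : ℕ, ContMDiff 𝓘(ℝ, E) 𝓘(ℝ, ℝ) 1 (bsum f ψ n) := by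
      intro n
      induction n with
      | zero =>
        have h6 : bsum f ψ 0 = fun _ => (0 : ℝ) := by
          funext x
          simp [bsum]
        rw [h6]
        exact contMDiff_const
      | succ n ih =>
        have h6 : bsum f ψ (n + 1) = fun x => bsum f ψ n x + ψ (f^[n] x) := by
          funext x
          exact Finset.sum_range_succ _ _
        rw [h6]
        exact ih.add (hψ.comp (hfsm n))
    exact h5 N
  have hJg : HasLogJac m S.g (bsum f ψ N) := by
    rw [hgf]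
    exact hasLogJac_iter f.toHomeomorph m ψ hψ.continuous hJ N
  have hsum : ∀ (n : ℕ) (p : M), bsum S.g (bsum f ψ N) n p = bsum f ψ (N * n) p := by
    intro n p
    rw [hgf]
    exact bsum_mul _ _ _ _ _
  have hitg : ∀ (n : ℕ) (p : M), S.g^[n] p = f^[N * n] p := by
    intro n p
    rw [hgf, Function.iterate_mul]
  have tr : (∀ U V : Set M, IsOpen U → U.Nonempty → IsOpen V → V.Nonempty →
      ∃ n : ℕ, (S.g^[n] '' U ∩ V).Nonempty) → TopTransitive f := by
    intro h U V hU hUn hV hVn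
    obtain ⟨n, y, ⟨x, hx, hxy⟩, hy⟩ := h U V hU hUn hV hVn
    exact ⟨N * n, y, ⟨x, hx, by rw [← hitg]; exact hxy⟩, hy⟩
  rcases hper with hper | hper
  · obtain ⟨L, hL⟩ := hC4 E M k e he hemb.injective hinj _ hbsm
    apply tr
    obtain ⟨c, hc⟩ := exists_LP S
    intro U V hU hUn hV hVn
    refine transitive_of_unique hc (fun A hA => ?_) U V hU hUn hV hVn
    refine att_univ h1 h2 h3 h4 S m hpos (bsum f ψ N) L (fun x y => ?_) hJg ?_ A hA
    · rw [hiso]; exact hL x y
    · intro n p hp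
      rw [hsum]
      exact hper _ _ (by rw [← hitg]; exact hp)
  · -- the inverse
    set φ : M → ℝ := fun x => -bsum f ψ N (S.g.symm x) with hφ
    have hsymm : (S.g.symm : M → M) = f.symm^[N] := by
      funext x
      apply S.g.injective
      rw [S.g.apply_symm_apply, hgf]
      exact ((Function.RightInverse.iterate f.apply_symm_apply N) x).symm
    have hφsm : ContMDiff 𝓘(ℝ, E) 𝓘(ℝ, ℝ) 1 φ := by
      have h5 : φ = fun x => -bsum f ψ N (f.symm^[N] x) := by
        rw [hφ, hsymm]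
      rw [h5]
      exact (hbsm.comp (hfsm' N)).neg
    obtain ⟨L, hL⟩ := hC4 E M k e he hemb.injective hinj _ hφsm
    have hJg' : HasLogJac m S.symm.g φ := hasLogJac_symm S.g m _ hbsm.continuous hJg
    apply tr
    obtain ⟨c, hc⟩ := exists_LP S.symm
    intro U V hU hUn hV hVn
    obtain ⟨n, y, ⟨x, hx, hxy⟩, hy⟩ := transitive_of_unique hc (fun A hA => by
      refine att_univ h1 h2 h3 h4 S.symm m hpos φ L (fun x y => ?_) hJg' ?_ A hA
      · rw [hiso]; exact hL x y
      · intro n p hp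
        -- the sum over the periodic orbit of the inverse
        have hp' : S.g^[n] p = p := by
          have h6 : S.g^[n] (S.g.symm^[n] p) = p :=
            (Function.RightInverse.iterate S.g.apply_symm_apply n) p
          have h7 : S.g.symm^[n] p = p := hp
          rwa [h7] at h6
        have h8 : bsum S.g.symm φ n p = -bsum S.g (bsum f ψ N) n p := by
          unfold bsum
          rw [← Finset.sum_neg_distrib, ← Finset.sum_range_reflect]
          refine Finset.sum_congr rfl fun i hi => ?_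
          rw [Finset.mem_range] at hi
          rw [hφ]
          simp only
          congr 2
          rw [← Function.iterate_succ_apply' S.g.symm]
          have h9 : S.g^[i] p = S.g^[i] (S.g.symm^[n] p) := by
            have h7 : S.g.symm^[n] p = p := hp
            rw [h7]
          rw [h9]
          have h10 : n = i + (n - 1 - i).succ := by omega
          conv_rhs => rw [h10, Function.iterate_add_apply]
          exact ((Function.RightInverse.iterate S.g.apply_symm_apply i) _).symm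
        show 0 ≤ bsum S.g.symm φ n p
        rw [h8, hsum]
        have := hper _ _ (show f^[N * n] p = p by rw [← hitg]; exact hp')
        linarith) V U hV hVn hU hUn
    refine ⟨n, x, ⟨y, hy, ?_⟩, hx⟩
    rw [← hxy]
    exact (Function.RightInverse.iterate S.g.apply_symm_apply n) x

/-- Jacobian form for `C²` diffeomorphisms. -/
theorem main_det (h1 : PropA1.{v, 0}) (h2 : PropA2.{v}) (h3 : PropA3.{v}) (h4 : PropA4.{v})
    (hC1 : PropC1.{u, v}) (hC2 : PropC2.{u, v}) (hC3 : PropC3.{u, v}) (hC4 : PropC4.{u, v})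
    (hC5 : PropC5.{u, v})
    {E : Type u} [NormedAddCommGroup E] [NormedSpace ℝ E] [FiniteDimensional ℝ E]
    {M : Type v} [TopologicalSpace M] [T2Space M] [CompactSpace M] [ConnectedSpace M]
    [ChartedSpace E M] [IsManifold 𝓘(ℝ, E) ∞ M]
    (f : Diffeomorph 𝓘(ℝ, E) 𝓘(ℝ, E) M M 1) (hf2 : ContMDiff 𝓘(ℝ, E) 𝓘(ℝ, E) 2 f)
    (Es Eu : ∀ x : M, Submodule ℝ (TangentSpace 𝓘(ℝ, E) x)) (hA : IsAnosov f Es Eu)
    (hper : (∀ (n : ℕ) (p : M), f^[n] p = p → 1 ≤ |detD E (f^[n]) p|) ∨
      ∀ (n : ℕ) (p : M), f^[n] p = p → |detD E (f^[n]) p| ≤ 1) : TopTransitive f := by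
  obtain ⟨k, e, he, hemb, hinj⟩ := exists_embedding_euclidean_of_compact (I := 𝓘(ℝ, E)) (M := M)
  let _ : MeasurableSpace M := borel M
  have _ : BorelSpace M := ⟨rfl⟩
  let _ : MeasurableSpace E := borel E
  have _ : BorelSpace E := ⟨rfl⟩
  set b := Module.finBasis ℝ E with hb
  have hf1 : ContMDiff 𝓘(ℝ, E) 𝓘(ℝ, E) 1 f.toHomeomorph := f.contMDiff_toFun
  have hf1' : ContMDiff 𝓘(ℝ, E) 𝓘(ℝ, E) 1 f.toHomeomorph.symm := f.symm.contMDiff_toFun
  obtain ⟨μ, hfin, hpos, hvol⟩ := hC1 E M _ k b e he hinj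
  have hJ := hC2 E M _ k b e he hinj μ hvol f.toHomeomorph hf1 hf1'
  have hsm := hC3 E M _ k b e he hinj f.toHomeomorph hf2 hf1'
  refine main_measure h1 h2 h3 h4 hC4 f Es Eu hA μ hpos (lj b e f.toHomeomorph) hsm hJ ?_
  refine hper.imp (fun h n p hp => ?_) (fun h n p hp => ?_)
  · have h5 := hC5 E M _ k b e hinj f.toHomeomorph hf1 hf1' n p hp
    refine le_of_le_of_eq ?_ h5.symm
    exact Real.log_nonneg (h n p hp)
  · have h5 := hC5 E M _ k b e hinj f.toHomeomorph hf1 hf1' n p hp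
    refine le_of_eq_of_le h5 ?_
    exact Real.log_nonpos (abs_nonneg _) (h n p hp)

end Pool.Agent.W733.JA
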