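import Pool.Agent.H789R2.AN.Man
import Pool.Agent.H789R2.AN.Hyp
import Pool.Agent.H721R2.PerPt

/-!
# Statements of project JA (periodic Jacobians of Anosov diffeomorphisms and transitivity)
-/

set_option autoImplicit false

open scoped Manifold ContDiff Topology ENNReal
open Set Filter MeasureTheory Metric Module

namespace Pool.Agent.W733.JA

open Pool.Agent.H721R2 Pool.Agent.H789R2.AN

universe u v w

/-- `exp ψ` is the Jacobian of `g` with respect to the measure `m`. -/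
def HasLogJac {X : Type*} [MeasurableSpace X] (m : Measure X) (g : X → X) (ψ : X → ℝ) : Prop :=
  ∀ A : Set X, MeasurableSet A → m (g '' A) = ∫⁻ x in A, ENNReal.ofReal (Real.exp (ψ x)) ∂m

/-- the Birkhoff sum of `ψ` along `n` steps -/
def bsum {X : Type*} (g : X → X) (ψ : X → ℝ) (n : ℕ) (x : X) : ℝ :=
  ∑ i ∈ Finset.range n, ψ (g^[i] x)

/-- JA1: the closing lemma with exponential estimates -/
def PropA1 : Prop :=
  ∀ (X : Type u) (F : Type v) [MetricSpace X] [CompactSpace X] [NormedAddCommGroup F]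
    [NormedSpace ℝ F] (S : HypSys X F),
    ∃ C > 0, ∃ δ > 0, ∀ (x : X) (l : ℕ), 1 ≤ l → dist x (S.g^[l] x) < δ →
      ∃ p : X, S.g^[l] p = p ∧
        ∀ k ≤ l, dist (S.g^[k] p) (S.g^[k] x) ≤ C * ((1 / 2) ^ k + (1 / 2) ^ (l - k))

/-- JA2: near a proper attractor there are open sets visited a bounded number of times -/
def PropA2 : Prop :=
  ∀ (X : Type u) [MetricSpace X] [CompactSpace X] [ConnectedSpace X] [MeasurableSpace X]
    [BorelSpace X] (g : X ≃ₜ X) (c : ℝ), LP g c → ∀ A : Set X, IsAtt g A → A ≠ univ →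
    ∀ (m : Measure X) [IsFiniteMeasure m],
      ∃ W : Set X, IsOpen W ∧ W.Nonempty ∧ ∑' n : ℕ, m (g^[n] '' W) ≠ ⊤

/-- JA3: finite total mass gives points whose Birkhoff sums tend to `-∞` -/
def PropA3 : Prop :=
  ∀ (X : Type u) [TopologicalSpace X] [MeasurableSpace X] [BorelSpace X] (g : X ≃ₜ X)
    (m : Measure X) [IsFiniteMeasure m] (ψ : X → ℝ), Continuous ψ → HasLogJac m g ψ →
    ∀ W : Set X, MeasurableSet W → m W ≠ 0 → ∑' n : ℕ, m (g^[n] '' W) ≠ ⊤ →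
      ∃ x ∈ W, Tendsto (fun n : ℕ => bsum g ψ n x) atTop atBot

/-- JA4: pigeonhole -/
def PropA4 : Prop :=
  ∀ (X : Type u) [MetricSpace X] [CompactSpace X] (g : X → X) (ψ : X → ℝ) (x : X),
    Tendsto (fun n : ℕ => bsum g ψ n x) atTop atBot →
    ∀ K δ : ℝ, 0 < δ → ∃ i l : ℕ, 1 ≤ l ∧ dist (g^[i] x) (g^[l] (g^[i] x)) < δ ∧
      bsum g ψ l (g^[i] x) ≤ -K

/-- the factor by which `L : E → F` expands the volume, relative to the basis `b` of `E` -/
noncomputable def vf {E : Type*} [NormedAddCommGroup E] [NormedSpace ℝ E] {k m : ℕ}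
    (b : Basis (Fin k) ℝ E) (L : E →L[ℝ] EuclideanSpace ℝ (Fin m)) : ℝ :=
  √(Matrix.det (Matrix.of fun i j : Fin k => inner ℝ (L (b i)) (L (b j))))

/-- `m` is the `k`-dimensional volume of `M` for the immersion `e` of `M` in `ℝᵐ` -/
def IsVolE {E : Type*} [NormedAddCommGroup E] [NormedSpace ℝ E] [MeasurableSpace E] [BorelSpace E]
    {M : Type*} [TopologicalSpace M] [ChartedSpace E M] [MeasurableSpace M]
    {k m : ℕ} (b : Basis (Fin k) ℝ E) (e : M → EuclideanSpace ℝ (Fin m)) (μ : Measure M) : Prop :=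
  ∀ (c : M) (A : Set M), MeasurableSet A → A ⊆ (extChartAt 𝓘(ℝ, E) c).source →
    μ A = ∫⁻ y in (extChartAt 𝓘(ℝ, E) c) '' A,
      ENNReal.ofReal (vf b (fderiv ℝ (e ∘ (extChartAt 𝓘(ℝ, E) c).symm) y)) ∂b.addHaar

/-- the derivative `D_x g`, written in the preferred charts at `x` and `g x` -/
noncomputable def dEnd (E : Type*) [NormedAddCommGroup E] [NormedSpace ℝ E]
    {M : Type*} [TopologicalSpace M] [ChartedSpace E M] (g : M → M) (x : M) : E →L[ℝ] E :=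
  mfderiv 𝓘(ℝ, E) 𝓘(ℝ, E) g x

/-- the determinant of `D_x g`, in the preferred charts at `x` and `g x`; it is the determinant of
an endomorphism of the tangent space at `x` if `g x = x` -/
noncomputable def detD (E : Type*) [NormedAddCommGroup E] [NormedSpace ℝ E]
    {M : Type*} [TopologicalSpace M] [ChartedSpace E M] (g : M → M) (x : M) : ℝ :=
  LinearMap.det (dEnd E g x : E →ₗ[ℝ] E)

/-- the logarithm of the Jacobian of `g` with respect to the volume -/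
noncomputable def lj {E : Type*} [NormedAddCommGroup E] [NormedSpace ℝ E]
    {M : Type*} [TopologicalSpace M] [ChartedSpace E M]
    {k m : ℕ} (b : Basis (Fin k) ℝ E) (e : M → EuclideanSpace ℝ (Fin m)) (g : M → M) (x : M) : ℝ :=
  Real.log (|detD E g x| * vf b (dm E e (g x)) / vf b (dm E e x))

/-- JC0: linear algebra of `vf` -/
def PropC0 : Prop :=
  ∀ (E : Type u) [NormedAddCommGroup E] [NormedSpace ℝ E] [FiniteDimensional ℝ E] (k m : ℕ)
    (b : Basis (Fin k) ℝ E) (L : E →L[ℝ] EuclideanSpace ℝ (Fin m)),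
    (Function.Injective L → 0 < vf b L) ∧
    ∀ A : E →L[ℝ] E, vf b (L.comp A) = |LinearMap.det (A : E →ₗ[ℝ] E)| * vf b L

/-- JC1: existence of the volume measure -/
def PropC1 : Prop :=
  ∀ (E : Type u) [NormedAddCommGroup E] [NormedSpace ℝ E] [FiniteDimensional ℝ E]
    [MeasurableSpace E] [BorelSpace E] (M : Type v) [TopologicalSpace M] [T2Space M]
    [CompactSpace M] [ChartedSpace E M] [IsManifold 𝓘(ℝ, E) ∞ M] [MeasurableSpace M]
    [BorelSpace M] (k m : ℕ) (b : Basis (Fin k) ℝ E) (e : M → EuclideanSpace ℝ (Fin m)),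
    ContMDiff 𝓘(ℝ, E) 𝓘(ℝ, EuclideanSpace ℝ (Fin m)) ∞ e →
    (∀ x, Function.Injective (dm E e x)) →
    ∃ μ : Measure M, IsFiniteMeasure μ ∧ (∀ U : Set M, IsOpen U → U.Nonempty → μ U ≠ 0) ∧
      IsVolE b e μ

/-- JC2: change of variables -/
def PropC2 : Prop :=
  ∀ (E : Type u) [NormedAddCommGroup E] [NormedSpace ℝ E] [FiniteDimensional ℝ E]
    [MeasurableSpace E] [BorelSpace E] (M : Type v) [TopologicalSpace M] [T2Space M]
    [CompactSpace M] [ChartedSpace E M] [IsManifold 𝓘(ℝ, E) ∞ M] [MeasurableSpace M]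
    [BorelSpace M] (k m : ℕ) (b : Basis (Fin k) ℝ E) (e : M → EuclideanSpace ℝ (Fin m)),
    ContMDiff 𝓘(ℝ, E) 𝓘(ℝ, EuclideanSpace ℝ (Fin m)) ∞ e →
    (∀ x, Function.Injective (dm E e x)) →
    ∀ μ : Measure M, IsVolE b e μ → ∀ g : M ≃ₜ M, ContMDiff 𝓘(ℝ, E) 𝓘(ℝ, E) 1 g →
      ContMDiff 𝓘(ℝ, E) 𝓘(ℝ, E) 1 g.symm → HasLogJac μ g (lj b e g)

/-- JC3: the Jacobian of a `C²` diffeomorphism is `C¹` -/
def PropC3 : Prop :=
  ∀ (E : Type u) [NormedAddCommGroup E] [NormedSpace ℝ E] [FiniteDimensional ℝ E]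
    (M : Type v) [TopologicalSpace M] [ChartedSpace E M] [IsManifold 𝓘(ℝ, E) ∞ M]
    (k m : ℕ) (b : Basis (Fin k) ℝ E) (e : M → EuclideanSpace ℝ (Fin m)),
    ContMDiff 𝓘(ℝ, E) 𝓘(ℝ, EuclideanSpace ℝ (Fin m)) ∞ e →
    (∀ x, Function.Injective (dm E e x)) →
    ∀ g : M ≃ₜ M, ContMDiff 𝓘(ℝ, E) 𝓘(ℝ, E) 2 g →
      ContMDiff 𝓘(ℝ, E) 𝓘(ℝ, E) 1 g.symm → ContMDiff 𝓘(ℝ, E) 𝓘(ℝ, ℝ) 1 (lj b e g)

/-- JC4: a `C¹` function on a closed submanifold is Lipschitz for the distance of the ambient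
space -/
def PropC4 : Prop :=
  ∀ (E : Type u) [NormedAddCommGroup E] [NormedSpace ℝ E] [FiniteDimensional ℝ E]
    (M : Type v) [TopologicalSpace M] [T2Space M] [CompactSpace M] [ChartedSpace E M]
    [IsManifold 𝓘(ℝ, E) ∞ M] (m : ℕ) (e : M → EuclideanSpace ℝ (Fin m)),
    ContMDiff 𝓘(ℝ, E) 𝓘(ℝ, EuclideanSpace ℝ (Fin m)) ∞ e → Function.Injective e →
    (∀ x, Function.Injective (dm E e x)) →
    ∀ ψ : M → ℝ, ContMDiff 𝓘(ℝ, E) 𝓘(ℝ, ℝ) 1 ψ →
      ∃ L : ℝ, ∀ x y, |ψ x - ψ y| ≤ L * ‖e x - e y‖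

/-- JC5: the Birkhoff sum of the log-Jacobian along a periodic orbit -/
def PropC5 : Prop :=
  ∀ (E : Type u) [NormedAddCommGroup E] [NormedSpace ℝ E] [FiniteDimensional ℝ E]
    (M : Type v) [TopologicalSpace M] [ChartedSpace E M] [IsManifold 𝓘(ℝ, E) ∞ M]
    (k m : ℕ) (b : Basis (Fin k) ℝ E) (e : M → EuclideanSpace ℝ (Fin m)),
    (∀ x, Function.Injective (dm E e x)) →
    ∀ g : M ≃ₜ M, ContMDiff 𝓘(ℝ, E) 𝓘(ℝ, E) 1 g → ContMDiff 𝓘(ℝ, E) 𝓘(ℝ, E) 1 g.symm →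
      ∀ (n : ℕ) (p : M), g^[n] p = p →
        bsum g (lj b e g) n p = Real.log |detD E (g^[n]) p|

end Pool.Agent.W733.JA
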